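import Pool.Agent.U19.SN.Form

/-!
# The maximum of the sum of squares on unit vectors
-/

namespace Pool.Agent.NPC.ER.SN19

/-- the symmetric bilinear forms -/
def Symm (q : BF) : Prop := ∀ x y : ℕ → ℝ, ev q x y = ev q y x

theorem ev_pm (l : BF) (p q : ℕ → ℝ) : ev l (fun i => p i + q i) (fun i => p i - q i) =
    ev l p p - ev l q q + (ev l q p - ev l p q) := by
  induction l with
  | nil => simp [ev]
  | cons t l ih =>
    simp only [ev, List.map_cons, List.sum_cons] at ih ⊢
    rw [ih]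
    simp only [tev]
    ring

theorem ev_smul (l : BF) (a b : ℝ) (x y : ℕ → ℝ) :
    ev l (fun i => a * x i) (fun i => b * y i) = a * b * ev l x y := by
  induction l with
  | nil => simp [ev]
  | cons t l ih =>
    simp only [ev, List.map_cons, List.sum_cons] at ih ⊢
    rw [ih]
    simp only [tev]
    ring

theorem sq_smul (l : List BF) (a b : ℝ) (x y : ℕ → ℝ) :
    sq l (fun i => a * x i) (fun i => b * y i) = (a * b) ^ 2 * sq l x y := by
  unfold sq
  simp only [ev_smul]
  induction l with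
  | nil => simp
  | cons t l ih =>
    simp only [List.map_cons, List.sum_cons]
    rw [ih]
    ring

theorem nq_smul (n : ℕ) (a : ℝ) (x : ℕ → ℝ) : nq n (fun i => a * x i) = a ^ 2 * nq n x := by
  unfold nq
  rw [Finset.mul_sum]
  exact Finset.sum_congr rfl fun i _ => by ring

theorem ip_smul (n : ℕ) (a b : ℝ) (x y : ℕ → ℝ) :
    ip n (fun i => a * x i) (fun i => b * y i) = a * b * ip n x y := by
  unfold ip
  rw [Finset.mul_sum]
  exact Finset.sum_congr rfl fun i _ => by ring

theorem nq_nonneg (n : ℕ) (x : ℕ → ℝ) : 0 ≤ nq n x := Finset.sum_nonneg fun i _ => by positivity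

theorem sq_le_nq {n e : ℕ} (he : e < n) (x : ℕ → ℝ) : x e ^ 2 ≤ nq n x :=
  Finset.single_le_sum (f := fun i => x i ^ 2) (fun i _ => by positivity) (Finset.mem_range.2 he)

theorem nq_add (n : ℕ) (p q : ℕ → ℝ) :
    nq n (fun i => p i + q i) = nq n p + nq n q + 2 * ip n p q := by
  unfold nq ip
  rw [Finset.mul_sum, ← Finset.sum_add_distrib, ← Finset.sum_add_distrib]
  exact Finset.sum_congr rfl fun i _ => by ring

theorem nq_sub (n : ℕ) (p q : ℕ → ℝ) :
    nq n (fun i => p i - q i) = nq n p + nq n q - 2 * ip n p q := by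
  unfold nq ip
  rw [Finset.mul_sum, ← Finset.sum_add_distrib, ← Finset.sum_sub_distrib]
  exact Finset.sum_congr rfl fun i _ => by ring

theorem ip_pm (n : ℕ) (p q : ℕ → ℝ) :
    ip n (fun i => p i + q i) (fun i => p i - q i) = nq n p - nq n q := by
  unfold nq ip
  rw [← Finset.sum_sub_distrib]
  exact Finset.sum_congr rfl fun i _ => by ring

theorem ip_self (n : ℕ) (x : ℕ → ℝ) : ip n x x = nq n x := by
  unfold nq ip
  exact Finset.sum_congr rfl fun i _ => by ring

theorem ip_sq_le (n : ℕ) (x y : ℕ → ℝ) : ip n x y ^ 2 ≤ nq n x * nq n y :=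
  Finset.sum_mul_sq_le_sq_mul_sq _ _ _

theorem ev_sq_le {n : ℕ} {q : BF} (hq : Ok n q) (x : ℕ → ℝ) :
    ev q x x ^ 2 ≤ (q.length * cs q) * (nq n x * nq n x) := by
  have h1 := sq_quadL hq x x
  have h2 := sq_nonneg' (quadL n q) x x
  linarith

theorem ev_mul_le {n : ℕ} {q : BF} (hq : Ok n q) (x y : ℕ → ℝ) :
    ev q x x * ev q y y ≤ (q.length * cs q) * (nq n x * nq n y) := by
  have h1 := ev_sq_le hq x
  have h2 := ev_sq_le hq y
  have hx := nq_nonneg n x
  have hy := nq_nonneg n y
  refine (le_abs_self _).trans (abs_le_of_sq_le_sq ?_ (by positivity))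
  calc (ev q x x * ev q y y) ^ 2 = ev q x x ^ 2 * ev q y y ^ 2 := by ring
    _ ≤ ((q.length * cs q) * (nq n x * nq n x)) * ((q.length * cs q) * (nq n y * nq n y)) :=
      mul_le_mul h1 h2 (by positivity) (by positivity)
    _ = _ := by ring

theorem sq_diff {qs : List BF} {n : ℕ} (hqs : ∀ q ∈ qs, Ok n q) (hs : ∀ q ∈ qs, Symm q)
    (p q : ℕ → ℝ) : sq qs p p + sq qs q q - 2 * (del qs * (nq n p * nq n q)) ≤
      sq qs (fun i => p i + q i) (fun i => p i - q i) := by
  induction qs with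
  | nil => simp [sq, del]
  | cons a qs ih =>
    have h1 := ih (fun b hb => hqs b (List.mem_cons_of_mem _ hb))
      (fun b hb => hs b (List.mem_cons_of_mem _ hb))
    have h2 := ev_mul_le (hqs a List.mem_cons_self) p q
    have h3 := ev_pm a p q
    rw [hs a List.mem_cons_self q p, sub_self, add_zero] at h3
    rw [sq_cons, sq_cons, sq_cons, h3]
    have h4 : (del (a :: qs) : ℝ) = a.length * cs a + del qs := by
      unfold del
      rw [List.map_cons, List.sum_cons]
      push_cast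
      rfl
    rw [h4]
    nlinarith

theorem core {n e : ℕ} {qs : List BF} (he : e < n) (hqs : ∀ q ∈ qs, Ok n q)
    (hs : ∀ q ∈ qs, Symm q) :
    (∃ x y : ℕ → ℝ, nq n x ≤ 1 ∧ nq n y ≤ 1 ∧ ((del qs : ℝ) + 1) ^ 2 < sq (forms n e qs) x y) ↔
      ∃ w : ℕ → ℝ, sq qs w w < w e ^ 4 := by
  constructor
  · rintro ⟨x, y, hx, hy, h⟩
    rw [sq_forms hqs] at h
    have hX := nq_nonneg n x
    have hY := nq_nonneg n y
    have hip := ip_sq_le n x y
    have hd : (0 : ℝ) ≤ del qs := Nat.cast_nonneg _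
    have hXY : nq n x * nq n y ≤ 1 := mul_le_one₀ hx hY hy
    have hstar : 0 < 2 * (x e * y e) ^ 2 - 2 * sq qs x y +
        del qs ^ 2 * (ip n x y ^ 2 - nq n x * nq n y) := by
      have : ((del qs : ℝ) + 1) ^ 2 * (nq n x * nq n y) ≤ ((del qs : ℝ) + 1) ^ 2 * 1 :=
        mul_le_mul_of_nonneg_left hXY (by positivity)
      nlinarith
    have hsq := sq_nonneg' qs x y
    have hdip : (del qs : ℝ) ^ 2 * (ip n x y ^ 2 - nq n x * nq n y) ≤ 0 :=
      mul_nonpos_of_nonneg_of_nonpos (by positivity) (by linarith)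
    have hpos : 0 < (x e * y e) ^ 2 := by linarith
    have hxe : 0 < x e ^ 2 := by
      have : x e ≠ 0 := by
        rintro h0
        rw [h0] at hpos
        simp at hpos
      positivity
    have hye : 0 < y e ^ 2 := by
      have : y e ≠ 0 := by
        rintro h0
        rw [h0] at hpos
        simp at hpos
      positivity
    have hX0 : 0 < nq n x := hxe.trans_le (sq_le_nq he x)
    have hY0 : 0 < nq n y := hye.trans_le (sq_le_nq he y)
    -- normalisation
    obtain ⟨a, ha0, ha⟩ : ∃ a : ℝ, 0 < a ∧ a ^ 2 * nq n x = 1 := by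
      refine ⟨(√(nq n x))⁻¹, by positivity, ?_⟩
      rw [inv_pow, Real.sq_sqrt hX]
      exact inv_mul_cancel₀ hX0.ne'
    obtain ⟨b, hb0, hb⟩ : ∃ a : ℝ, 0 < a ∧ a ^ 2 * nq n y = 1 := by
      refine ⟨(√(nq n y))⁻¹, by positivity, ?_⟩
      rw [inv_pow, Real.sq_sqrt hY]
      exact inv_mul_cancel₀ hY0.ne'
    set p : ℕ → ℝ := fun i => (a * x i + b * y i) / 2 with hp
    set q : ℕ → ℝ := fun i => (a * x i - b * y i) / 2 with hq
    have e1 : (fun i => a * x i) = fun i => p i + q i := by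
      funext i; simp only [hp, hq]; ring
    have e2 : (fun i => b * y i) = fun i => p i - q i := by
      funext i; simp only [hp, hq]; ring
    have n1 : nq n p + nq n q + 2 * ip n p q = 1 := by
      rw [← nq_add, ← e1, nq_smul, ha]
    have n2 : nq n p + nq n q - 2 * ip n p q = 1 := by
      rw [← nq_sub, ← e2, nq_smul, hb]
    have n3 : a * b * ip n x y = nq n p - nq n q := by
      rw [← ip_pm, ← e1, ← e2, ip_smul]
    have n4 : (a * b) ^ 2 * sq qs x y = sq qs (fun i => p i + q i) (fun i => p i - q i) := by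
      rw [← e1, ← e2, sq_smul]
    have n5 : a * b * (x e * y e) = p e ^ 2 - q e ^ 2 := by
      simp only [hp, hq]; ring
    have h5 := sq_diff hqs hs p q
    have hP := nq_nonneg n p
    have hQ := nq_nonneg n q
    have hstar2 : 0 < 2 * (p e ^ 2 - q e ^ 2) ^ 2 - 2 * sq qs (fun i => p i + q i)
        (fun i => p i - q i) + del qs ^ 2 * ((nq n p - nq n q) ^ 2 - 1) := by
      rw [← n4, ← n5, ← n3]
      have h6 : (a * b) ^ 2 * (nq n x * nq n y) = 1 := by
        calc (a * b) ^ 2 * (nq n x * nq n y) = (a ^ 2 * nq n x) * (b ^ 2 * nq n y) := by ring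
          _ = 1 := by rw [ha, hb, one_mul]
      have h7 : 0 < (a * b) ^ 2 := by positivity
      have h8 := mul_pos h7 hstar
      have h9 : (a * b) ^ 2 * (2 * (x e * y e) ^ 2 - 2 * sq qs x y +
        del qs ^ 2 * (ip n x y ^ 2 - nq n x * nq n y)) =
        2 * (a * b * (x e * y e)) ^ 2 - 2 * ((a * b) ^ 2 * sq qs x y) +
        del qs ^ 2 * ((a * b * ip n x y) ^ 2 - (a * b) ^ 2 * (nq n x * nq n y)) := by ring
      rw [h9, h6] at h8
      exact h8
    have h10 : (nq n p - nq n q) ^ 2 - 1 = - (4 * (nq n p * nq n q)) := by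
      have : nq n p + nq n q = 1 := by linarith
      have h11 : (1 : ℝ) = (nq n p + nq n q) ^ 2 := by rw [this]; ring
      rw [h11]; ring
    rw [h10] at hstar2
    have hdd : (del qs : ℝ) ≤ del qs ^ 2 := by
      have : del qs ≤ del qs ^ 2 := Nat.le_self_pow (by norm_num) _
      exact_mod_cast this
    have h12 : (del qs : ℝ) * (nq n p * nq n q) ≤ del qs ^ 2 * (nq n p * nq n q) :=
      mul_le_mul_of_nonneg_right hdd (mul_nonneg hP hQ)
    have h13 : sq qs p p + sq qs q q < p e ^ 4 + q e ^ 4 := by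
      have h14 : 0 ≤ p e ^ 2 * q e ^ 2 := by positivity
      nlinarith
    by_cases hc : sq qs p p < p e ^ 4
    · exact ⟨p, hc⟩
    · exact ⟨q, by linarith⟩
  · rintro ⟨w, hw⟩
    have h1 := sq_nonneg' qs w w
    have hwe : w e ≠ 0 := by
      rintro h0
      rw [h0] at hw
      simp only [ne_eq, OfNat.ofNat_ne_zero, not_false_eq_true, zero_pow] at hw
      linarith
    have hwe2 : 0 < w e ^ 2 := by positivity
    have hW : 0 < nq n w := hwe2.trans_le (sq_le_nq he w)
    obtain ⟨a, ha0, ha⟩ : ∃ a : ℝ, 0 < a ∧ a ^ 2 * nq n w = 1 := by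
      refine ⟨(√(nq n w))⁻¹, by positivity, ?_⟩
      rw [inv_pow, Real.sq_sqrt hW.le]
      exact inv_mul_cancel₀ hW.ne'
    refine ⟨fun i => a * w i, fun i => a * w i, ?_, ?_, ?_⟩
    · rw [nq_smul, ha]
    · rw [nq_smul, ha]
    · rw [sq_forms hqs, nq_smul, ip_smul, sq_smul, ip_self]
      have h2 : a * a * nq n w = 1 := by rw [← ha]; ring
      rw [ha, h2]
      have h3 : 0 < a ^ 4 * (w e ^ 4 - sq qs w w) := mul_pos (by positivity) (by linarith)
      nlinarith

end Pool.Agent.NPC.ER.SN19
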