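import Pool.Agent.ER.Defs

/-!
# The spectral norm of a 3-tensor
-/

namespace Pool.Agent.NPC.ER.SN19

/-- The value `T(x, y, z)` of a 3-tensor. -/
noncomputable def form {d : ℕ} (T : Fin d → Fin d → Fin d → ℝ) (x y z : EuclideanSpace ℝ (Fin d)) :
    ℝ := ∑ i, ∑ j, ∑ k, T i j k * x i * y j * z k

/-- The spectral norm of a 3-tensor: the supremum of `|T(x, y, z)|` over unit vectors. -/
noncomputable def specNorm {d : ℕ} (T : Fin d → Fin d → Fin d → ℝ) : ℝ :=
  sSup {r : ℝ | ∃ x y z : EuclideanSpace ℝ (Fin d), ‖x‖ = 1 ∧ ‖y‖ = 1 ∧ ‖z‖ = 1 ∧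
    r = |form T x y z|}

/-- An instance: the dimension `d`, the list of the entries of a tensor, the bound. -/
abbrev Inst : Type := ℕ × List ℚ × ℚ

/-- The dimension is positive, the list has `d ^ 3` entries, and the bound is positive. -/
def IsInst (I : Inst) : Prop := 0 < I.1 ∧ I.2.1.length = I.1 ^ 3 ∧ 0 < I.2.2

/-- The tensor of an instance: the entry `(i, j, k)` is the one at the position
`(i * d + j) * d + k` of the list. -/
noncomputable def ten (I : Inst) (i j k : Fin I.1) : ℝ :=
  ((I.2.1.getD ((i * I.1 + j) * I.1 + k) 0 : ℚ) : ℝ)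

/-- SPECTRAL-NORM-BOUND: the spectral norm is at most the bound. -/
def SNBound (I : Inst) : Prop := IsInst I ∧ specNorm (ten I) ≤ I.2.2

/-- SPECTRAL-NORM-EXCEED: the spectral norm exceeds the bound. -/
def SNExceed (I : Inst) : Prop := IsInst I ∧ I.2.2 < specNorm (ten I)

/-- The class `∀ℝ`: the complements of the problems in `∃ℝ`. -/
def InFR (L : Set (List Bool)) : Prop := InER Lᶜ

/-- `∀ℝ`-completeness under polynomial-time many-one reductions. -/
def FRComplete (L : Set (List Bool)) : Prop := InFR L ∧ ∀ L', InFR L' → Reduces L' L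

end Pool.Agent.NPC.ER.SN19
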