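import Mathlib

/-!
# Bilinear forms given by lists of terms, and the basic identity

For a list `qs` of bilinear forms and a number `e` we write down a list of bilinear forms whose sum
of squares is
`(δ + 1)² |x|² |y|² - δ² (|x|² |y|² - ⟨x, y⟩²) - 2 ∑ q(x, y)² + 2 (x_e y_e)²`.
-/

namespace Pool.Agent.NPC.ER.SN19

/-- a bilinear form: the list of its terms `(a, b, c)`, which stands for `c x_a y_b` -/
abbrev BF : Type := List (ℕ × ℕ × ℤ)

/-- the value of a term -/
def tev (t : ℕ × ℕ × ℤ) (x y : ℕ → ℝ) : ℝ := t.2.2 * (x t.1 * y t.2.1)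

/-- the value of a bilinear form -/
def ev (l : BF) (x y : ℕ → ℝ) : ℝ := (l.map fun t => tev t x y).sum

/-- the sum of the squares of the values of bilinear forms -/
def sq (l : List BF) (x y : ℕ → ℝ) : ℝ := (l.map fun q => ev q x y ^ 2).sum

theorem sq_nil (x y : ℕ → ℝ) : sq [] x y = 0 := rfl

theorem sq_cons (q : BF) (l : List BF) (x y : ℕ → ℝ) : sq (q :: l) x y = ev q x y ^ 2 + sq l x y := by
  simp [sq]

theorem sq_append (l l' : List BF) (x y : ℕ → ℝ) : sq (l ++ l') x y = sq l x y + sq l' x y := by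
  simp [sq]

theorem sq_flatMap {α : Type} (l : List α) (f : α → List BF) (x y : ℕ → ℝ) :
    sq (l.flatMap f) x y = (l.map fun a => sq (f a) x y).sum := by
  induction l with
  | nil => rfl
  | cons a l ih => rw [List.flatMap_cons, sq_append, ih, List.map_cons, List.sum_cons]

theorem sq_nonneg' (l : List BF) (x y : ℕ → ℝ) : 0 ≤ sq l x y := by
  unfold sq
  apply List.sum_nonneg
  intro a ha
  obtain ⟨q, _, rfl⟩ := List.mem_map.1 ha
  positivity

theorem sum_range_list (n : ℕ) (f : ℕ → ℝ) :
    ((List.range n).map f).sum = ∑ i ∈ Finset.range n, f i := by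
  induction n with
  | zero => simp
  | succ n ih => rw [List.range_succ, List.map_append, List.sum_append, ih,
      Finset.sum_range_succ]; simp

/-- the square of the norm of the first `n` coordinates -/
def nq (n : ℕ) (x : ℕ → ℝ) : ℝ := ∑ i ∈ Finset.range n, x i ^ 2

/-- the inner product of the first `n` coordinates -/
def ip (n : ℕ) (x y : ℕ → ℝ) : ℝ := ∑ i ∈ Finset.range n, x i * y i

/-- the coefficient of a term -/
def cf (t : ℕ × ℕ × ℤ) : ℝ := t.2.2

/-- all products of coordinates other than the one of the term `t`, with the same coefficient -/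
def compl (n : ℕ) (t : ℕ × ℕ × ℤ) : List BF :=
  (List.range n).flatMap fun a => (List.range n).flatMap fun b =>
    if a = t.1 ∧ b = t.2.1 then [] else [[(a, b, t.2.2)]]

theorem sq_compl {n : ℕ} {t : ℕ × ℕ × ℤ} (h1 : t.1 < n) (h2 : t.2.1 < n) (x y : ℕ → ℝ) :
    sq (compl n t) x y = cf t ^ 2 * (nq n x * nq n y) - tev t x y ^ 2 := by
  unfold compl
  rw [sq_flatMap]
  simp only [sq_flatMap]
  rw [sum_range_list]
  simp only [sum_range_list]
  have h3 : ∀ a b, sq (if a = t.1 ∧ b = t.2.1 then [] else [[(a, b, t.2.2)]]) x y =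
      cf t ^ 2 * (x a ^ 2 * y b ^ 2) - (if a = t.1 then (if b = t.2.1 then tev t x y ^ 2 else 0)
        else 0) := by
    intro a b
    by_cases h : a = t.1
    · by_cases h' : b = t.2.1
      · rw [if_pos ⟨h, h'⟩, if_pos h, if_pos h', sq_nil]
        subst h h'
        unfold tev cf
        ring
      · rw [if_neg (fun h => h' h.2), if_pos h, if_neg h']
        simp only [sq, ev, tev, cf, List.map_cons, List.map_nil, List.sum_cons, List.sum_nil]
        ring
    · rw [if_neg (fun h' => h h'.1), if_neg h]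
      simp only [sq, ev, tev, cf, List.map_cons, List.map_nil, List.sum_cons, List.sum_nil]
      ring
  simp only [h3, Finset.sum_sub_distrib, ← Finset.mul_sum]
  congr 1
  · unfold nq
    rw [Finset.sum_mul_sum]
    simp only [Finset.mul_sum]
  · rw [Finset.sum_comm]
    simp only [Finset.sum_ite_eq', Finset.mem_range, h1, h2, if_true]

/-- the forms for an ordered pair of terms -/
def pairL (n : ℕ) (t t' : ℕ × ℕ × ℤ) : List BF :=
  [t, (t'.1, t'.2.1, - t'.2.2)] :: (compl n t ++ compl n t')

theorem sq_pairL {n : ℕ} {t t' : ℕ × ℕ × ℤ} (h1 : t.1 < n) (h2 : t.2.1 < n) (h3 : t'.1 < n)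
    (h4 : t'.2.1 < n) (x y : ℕ → ℝ) : sq (pairL n t t') x y =
      (cf t ^ 2 + cf t' ^ 2) * (nq n x * nq n y) - 2 * (tev t x y * tev t' x y) := by
  unfold pairL
  rw [sq_cons, sq_append, sq_compl h1 h2, sq_compl h3 h4]
  have : ev [t, (t'.1, t'.2.1, - t'.2.2)] x y = tev t x y - tev t' x y := by
    simp only [ev, tev, List.map_cons, List.map_nil, List.sum_cons, List.sum_nil]
    push_cast
    ring
  rw [this]
  ring

/-- the sum of the squares of the coefficients -/
def cs (q : BF) : ℕ := (q.map fun t => t.2.2.natAbs ^ 2).sum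

theorem cs_eq (q : BF) : (cs q : ℝ) = (q.map fun t => cf t ^ 2).sum := by
  unfold cs
  induction q with
  | nil => simp
  | cons t q ih =>
    simp only [List.map_cons, List.sum_cons, Nat.cast_add, Nat.cast_pow]
    rw [← ih]
    congr 1
    unfold cf
    have : ((t.2.2.natAbs : ℤ) : ℝ) ^ 2 = (t.2.2 : ℝ) ^ 2 := by
      have h := Int.natAbs_sq t.2.2
      exact_mod_cast h
    rw [← this]
    norm_cast

/-- the forms for the square of a form -/
def quadL (n : ℕ) (q : BF) : List BF := q.flatMap fun t => q.flatMap fun t' => pairL n t t'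

/-- all terms are in the range -/
def Ok (n : ℕ) (q : BF) : Prop := ∀ t ∈ q, t.1 < n ∧ t.2.1 < n

theorem sq_pair_sum {n : ℕ} (t : ℕ × ℕ × ℤ) (ht : t.1 < n ∧ t.2.1 < n) (x y : ℕ → ℝ) :
    ∀ q : BF, Ok n q → sq (q.flatMap fun t' => pairL n t t') x y =
      (q.length * cf t ^ 2 + cs q) * (nq n x * nq n y) - 2 * (tev t x y * ev q x y)
  | [], _ => by simp [sq, ev, cs]
  | t' :: q, hq => by
    have h1 := sq_pair_sum t ht x y q fun a ha => hq a (List.mem_cons_of_mem _ ha)
    have h2 := hq t' List.mem_cons_self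
    rw [List.flatMap_cons, sq_append, h1, sq_pairL ht.1 ht.2 h2.1 h2.2]
    rw [cs_eq, cs_eq]
    simp only [ev, List.map_cons, List.sum_cons, List.length_cons]
    push_cast
    ring

theorem sq_quadL_aux {n : ℕ} (x y : ℕ → ℝ) (q : BF) (hq : Ok n q) : ∀ p : BF, Ok n p →
    sq (p.flatMap fun t => q.flatMap fun t' => pairL n t t') x y =
      (q.length * cs p + p.length * cs q) * (nq n x * nq n y) - 2 * (ev p x y * ev q x y)
  | [], _ => by simp [sq, ev, cs]
  | t :: p, hp => by
    have h1 := sq_quadL_aux x y q hq p fun a ha => hp a (List.mem_cons_of_mem _ ha)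
    have h2 := hp t List.mem_cons_self
    rw [List.flatMap_cons, sq_append, h1, sq_pair_sum t h2 x y q hq]
    have h3 : (cs (t :: p) : ℝ) = cf t ^ 2 + cs p := by
      rw [cs_eq, cs_eq]; simp
    rw [h3]
    simp only [ev, List.map_cons, List.sum_cons, List.length_cons]
    push_cast
    ring

theorem sq_quadL {n : ℕ} {q : BF} (hq : Ok n q) (x y : ℕ → ℝ) :
    sq (quadL n q) x y = 2 * (q.length * cs q) * (nq n x * nq n y) - 2 * ev q x y ^ 2 := by
  unfold quadL
  rw [sq_quadL_aux x y q hq q hq]
  ring

/-- the constant `δ` -/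
def del (qs : List BF) : ℕ := (qs.map fun q => q.length * cs q).sum

/-- the list of bilinear forms -/
def forms (n e : ℕ) (qs : List BF) : List BF :=
  [(e, e, 1)] :: [(e, e, 1)] :: ((List.range n).map fun i => (i, i, (del qs : ℤ))) ::
    (qs.flatMap (quadL n) ++ (List.range n).flatMap fun a => (List.range n).map fun b => [(a, b, 1)])

theorem sq_forms {n e : ℕ} {qs : List BF} (hqs : ∀ q ∈ qs, Ok n q) (x y : ℕ → ℝ) :
    sq (forms n e qs) x y = (2 * del qs + 1) * (nq n x * nq n y) + del qs ^ 2 * ip n x y ^ 2 -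
      2 * sq qs x y + 2 * (x e * y e) ^ 2 := by
  have h1 : sq (qs.flatMap (quadL n)) x y =
      2 * del qs * (nq n x * nq n y) - 2 * sq qs x y := by
    rw [sq_flatMap]
    unfold del sq
    induction qs with
    | nil => simp
    | cons q qs ih =>
      have h2 := ih fun a ha => hqs a (List.mem_cons_of_mem _ ha)
      have h3 := sq_quadL (hqs q List.mem_cons_self) x y
      unfold sq at h3 h2
      simp only [List.map_cons, List.sum_cons]
      rw [h2, h3]
      push_cast
      ring
  have h2 : sq ((List.range n).flatMap fun a => (List.range n).map fun b => [(a, b, 1)]) x y =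
      nq n x * nq n y := by
    rw [sq_flatMap, sum_range_list]
    unfold nq
    rw [Finset.sum_mul_sum]
    apply Finset.sum_congr rfl
    intro a _
    unfold sq
    rw [List.map_map, sum_range_list]
    apply Finset.sum_congr rfl
    intro b _
    simp [ev, tev]
    ring
  have h3 : ev ((List.range n).map fun i => (i, i, (del qs : ℤ))) x y = del qs * ip n x y := by
    unfold ev ip
    rw [List.map_map, sum_range_list, Finset.mul_sum]
    apply Finset.sum_congr rfl
    intro b _
    simp [tev]
  have h4 : ev [(e, e, 1)] x y = x e * y e := by simp [ev, tev]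
  unfold forms
  rw [sq_cons, sq_cons, sq_cons, sq_append, h1, h2, h3, h4]
  ring

end Pool.Agent.NPC.ER.SN19
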