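import Pool.Agent.U19.SN.Red
import Pool.Agent.ER.Dec
import Pool.Agent.ER.Rat

/-!
# Membership, and the final form
-/

namespace Pool.Agent.NPC.ER.SN19

open Pool.Agent.NPC.H532 Pool.Agent.NPC.H670R2
open TDec (dec dec_toT toT_dec poly_dec)

/-- sum of the squares of the variables `4 i + c` -/
def nrmT (R : List ℕ) (c : ℕ) : Tm :=
  sumTm (R.map fun i => Tm.mul (Tm.var (4 * i + c)) (Tm.var (4 * i + c)))

/-- the value of the tensor -/
def frmT (R : List ℕ) (d : ℕ) : Tm :=
  sumTm (R.flatMap fun i => R.flatMap fun j => R.map fun k =>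
    Tm.mul (Tm.mul (Tm.mul (Tm.var (4 * ((i * d + j) * d + k) + 3)) (Tm.var (4 * i + 0)))
      (Tm.var (4 * j + 1))) (Tm.var (4 * k + 2)))

/-- the indices -/
def rng (I : Inst) : List ℕ := List.range (min I.1 I.2.1.length)

/-- the formula of an instance -/
def phi (I : Inst) : Fm :=
  Fm.and (Fm.eq (nrmT (rng I) 0) Tm.one) (Fm.and (Fm.eq (nrmT (rng I) 1) Tm.one)
    (Fm.and (Fm.eq (nrmT (rng I) 2) Tm.one)
      (Fm.and (conj (I.2.1.zipIdx.map fun p => eqRat (Tm.var (4 * p.2 + 3)) p.1))
        (Fm.or (Fm.lt (intTm I.2.2.num) (Tm.mul (natTm I.2.2.den) (frmT (rng I) I.1)))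
          (Fm.lt (intTm I.2.2.num) (Tm.mul (natTm I.2.2.den) (Tm.neg (frmT (rng I) I.1))))))))

theorem eval_sumTm_flatMap {β : Type} (x : ℕ → ℝ) (l : List β) (f : β → List Tm) :
    (sumTm (l.flatMap f)).eval x = (l.map fun a => (sumTm (f a)).eval x).sum := by
  induction l with
  | nil => simp [sumTm, Tm.eval]
  | cons a l ih =>
    rw [List.map_cons, List.sum_cons, ← ih]
    simp only [eval_sumTm, List.flatMap_cons, List.map_append, List.sum_append]

theorem eval_nrmT (x : ℕ → ℝ) (d c : ℕ) :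
    (nrmT (List.range d) c).eval x = ∑ i : Fin d, x (4 * i + c) ^ 2 := by
  unfold nrmT
  rw [eval_sumTm, List.map_map, sum_range_list,
    ← Fin.sum_univ_eq_sum_range (fun i => (Tm.eval x ∘ fun i => Tm.mul (Tm.var (4 * i + c))
      (Tm.var (4 * i + c))) i)]
  refine Finset.sum_congr rfl fun i _ => ?_
  simp only [Function.comp, Tm.eval]
  ring

theorem eval_frmT (x : ℕ → ℝ) (d : ℕ) : (frmT (List.range d) d).eval x =
    ∑ i : Fin d, ∑ j : Fin d, ∑ k : Fin d,
      x (4 * ((i * d + j) * d + k) + 3) * x (4 * i + 0) * x (4 * j + 1) * x (4 * k + 2) := by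
  unfold frmT
  rw [eval_sumTm_flatMap, sum_range_list]
  simp only [eval_sumTm_flatMap, sum_range_list]
  simp only [eval_sumTm, List.map_map, sum_range_list]
  rw [← Fin.sum_univ_eq_sum_range (fun i => ∑ j ∈ Finset.range d, ∑ k ∈ Finset.range d,
    (Tm.eval x ∘ fun k => Tm.mul (Tm.mul (Tm.mul (Tm.var (4 * ((i * d + j) * d + k) + 3))
      (Tm.var (4 * i + 0))) (Tm.var (4 * j + 1))) (Tm.var (4 * k + 2))) k)]
  refine Finset.sum_congr rfl fun i _ => ?_
  rw [← Fin.sum_univ_eq_sum_range (fun j => ∑ k ∈ Finset.range d,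
    (Tm.eval x ∘ fun k => Tm.mul (Tm.mul (Tm.mul (Tm.var (4 * (((i : ℕ) * d + j) * d + k) + 3))
      (Tm.var (4 * (i : ℕ) + 0))) (Tm.var (4 * j + 1))) (Tm.var (4 * k + 2))) k)]
  refine Finset.sum_congr rfl fun j _ => ?_
  rw [← Fin.sum_univ_eq_sum_range (fun k =>
    (Tm.eval x ∘ fun k => Tm.mul (Tm.mul (Tm.mul (Tm.var (4 * (((i : ℕ) * d + (j : ℕ)) * d + k) + 3))
      (Tm.var (4 * (i : ℕ) + 0))) (Tm.var (4 * (j : ℕ) + 1))) (Tm.var (4 * k + 2))) k)]
  refine Finset.sum_congr rfl fun k _ => ?_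
  simp only [Function.comp, Tm.eval]

theorem lt_rat_iff (x : ℕ → ℝ) (q : ℚ) (t : Tm) :
    (Fm.lt (intTm q.num) (Tm.mul (natTm q.den) t)).Holds x ↔ (q : ℝ) < t.eval x := by
  simp only [Fm.Holds, Tm.eval, eval_natTm, eval_intTm]
  have h : (0 : ℝ) < q.den := by exact_mod_cast q.den_pos
  have h2 : (q : ℝ) = q.num / q.den := by exact_mod_cast (Rat.num_div_den q).symm
  rw [h2, div_lt_iff₀ h, mul_comm]

theorem rng_eq {I : Inst} (hI : IsInst I) : rng I = List.range I.1 := by
  unfold rng
  congr 1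
  rw [hI.2.1]
  exact min_eq_left (Nat.le_self_pow (by norm_num) _)

theorem etr_phi {I : Inst} (hI : IsInst I) : ETR (phi I) ↔ (I.2.2 : ℝ) < specNorm (ten I) := by
  rw [lt_specNorm_iff hI.1]
  obtain ⟨d, l, σ⟩ := I
  have hr := rng_eq hI
  have hlen : l.length = d ^ 3 := hI.2.1
  simp only at hr ⊢
  unfold ETR phi
  simp only [hr]
  have hpos : ∀ i j k : Fin d, ((i : ℕ) * d + j) * d + k < l.length := by
    intro i j k
    rw [hlen]
    have h1 : (i : ℕ) * d + j < d * d := by
      calc (i : ℕ) * d + j < i * d + d := by omega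
        _ = (i + 1) * d := by ring
        _ ≤ d * d := Nat.mul_le_mul_right d i.2
    calc ((i : ℕ) * d + j) * d + k < (i * d + j) * d + d := by omega
      _ = (i * d + j + 1) * d := by ring
      _ ≤ (d * d) * d := Nat.mul_le_mul_right d h1
      _ = d ^ 3 := by ring
  constructor
  · rintro ⟨x, h1, h2, h3, h4, h5⟩
    have e1 : Fm.Holds x (Fm.eq (nrmT (List.range d) 0) Tm.one) := h1
    have e2 : Fm.Holds x (Fm.eq (nrmT (List.range d) 1) Tm.one) := h2
    have e3 : Fm.Holds x (Fm.eq (nrmT (List.range d) 2) Tm.one) := h3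
    have h5' : (σ : ℝ) < (frmT (List.range d) d).eval x ∨
        (σ : ℝ) < -(frmT (List.range d) d).eval x := by
      rcases h5 with h5 | h5
      · exact Or.inl ((lt_rat_iff x σ _).1 h5)
      · exact Or.inr ((lt_rat_iff x σ _).1 h5)
    simp only [Fm.Holds, eval_nrmT, Tm.eval] at e1 e2 e3
    rw [holds_conj] at h4
    have hc : ∀ i j k : Fin d, x (4 * (((i : ℕ) * d + j) * d + k) + 3) =
        ten (d, l, σ) i j k := by
      intro i j k
      have hp := hpos i j k
      have h6 := h4 (eqRat (Tm.var (4 * (((i : ℕ) * d + j) * d + k) + 3))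
        (l[((i : ℕ) * d + j) * d + k]'hp)) (by
          rw [List.mem_map]
          refine ⟨(l[((i : ℕ) * d + j) * d + k]'hp, ((i : ℕ) * d + j) * d + k), ?_, rfl⟩
          rw [List.mem_zipIdx_iff_getElem?]
          exact List.getElem?_eq_getElem hp)
      rw [holds_eqRat] at h6
      simp only [Tm.eval] at h6
      rw [h6]
      unfold ten
      simp only
      rw [List.getD_eq_getElem _ _ hp]
    have hn : ∀ (f : Fin d → ℝ), ∑ i, f i ^ 2 = 1 → ‖(WithLp.toLp 2 f : EuclideanSpace ℝ (Fin d))‖ = 1 := by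
      intro f hf
      have h6 : ‖(WithLp.toLp 2 f : EuclideanSpace ℝ (Fin d))‖ ^ 2 = 1 := by
        rw [EuclideanSpace.real_norm_sq_eq]
        exact hf
      exact (pow_eq_one_iff_of_nonneg (norm_nonneg _) two_ne_zero).1 h6
    refine ⟨WithLp.toLp 2 fun i : Fin d => x (4 * i + 0), WithLp.toLp 2 fun i : Fin d => x (4 * i + 1),
      WithLp.toLp 2 fun i : Fin d => x (4 * i + 2), hn _ e1, hn _ e2, hn _ e3, ?_⟩
    have hform : form (ten (d, l, σ)) (WithLp.toLp 2 fun i : Fin d => x (4 * i + 0))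
        (WithLp.toLp 2 fun i : Fin d => x (4 * i + 1))
        (WithLp.toLp 2 fun i : Fin d => x (4 * i + 2)) = (frmT (List.range d) d).eval x := by
      rw [eval_frmT]
      unfold form
      refine Finset.sum_congr rfl fun i _ => Finset.sum_congr rfl fun j _ =>
        Finset.sum_congr rfl fun k _ => ?_
      rw [hc]
    rw [hform]
    rcases h5' with h5 | h5
    · exact h5.trans_le (le_abs_self _)
    · exact h5.trans_le (neg_le_abs _)
  · rintro ⟨X, Y, Z, hX, hY, hZ, h⟩
    let x : ℕ → ℝ := fun a => if a % 4 = 0 then exv X (a / 4) else if a % 4 = 1 then exv Y (a / 4)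
      else if a % 4 = 2 then exv Z (a / 4) else ((l.getD (a / 4) 0 : ℚ) : ℝ)
    have hx0 : ∀ i : Fin d, x (4 * i + 0) = X i := by
      intro i
      simp only [x]
      rw [if_pos (by omega), show (4 * (i : ℕ) + 0) / 4 = i by omega]
      unfold exv
      rw [dif_pos i.2]
    have hx1 : ∀ i : Fin d, x (4 * i + 1) = Y i := by
      intro i
      simp only [x]
      rw [if_neg (by omega), if_pos (by omega), show (4 * (i : ℕ) + 1) / 4 = i by omega]
      unfold exv
      rw [dif_pos i.2]
    have hx2 : ∀ i : Fin d, x (4 * i + 2) = Z i := by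
      intro i
      simp only [x]
      rw [if_neg (by omega), if_neg (by omega), if_pos (by omega),
        show (4 * (i : ℕ) + 2) / 4 = i by omega]
      unfold exv
      rw [dif_pos i.2]
    have hx3 : ∀ p, x (4 * p + 3) = ((l.getD p 0 : ℚ) : ℝ) := by
      intro p
      simp only [x]
      rw [if_neg (by omega), if_neg (by omega), if_neg (by omega),
        show (4 * p + 3) / 4 = p by omega]
    have hn : ∀ V : EuclideanSpace ℝ (Fin d), ‖V‖ = 1 → ∑ i, V i ^ 2 = 1 := by
      intro V hV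
      rw [← EuclideanSpace.real_norm_sq_eq, hV, one_pow]
    refine ⟨x, ?_, ?_, ?_, ?_, ?_⟩
    · change (nrmT (List.range d) 0).eval x = 1
      rw [eval_nrmT]
      simp only [hx0]
      exact hn X hX
    · change (nrmT (List.range d) 1).eval x = 1
      rw [eval_nrmT]
      simp only [hx1]
      exact hn Y hY
    · change (nrmT (List.range d) 2).eval x = 1
      rw [eval_nrmT]
      simp only [hx2]
      exact hn Z hZ
    · rw [holds_conj]
      intro φ hφ
      obtain ⟨⟨q, p⟩, hp, rfl⟩ := List.mem_map.1 hφ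
      rw [List.mem_zipIdx_iff_getElem?] at hp
      simp only at hp
      rw [holds_eqRat]
      simp only [Tm.eval]
      rw [hx3, List.getD_eq_getElem?_getD, hp]
      rfl
    · have hform : (frmT (List.range d) d).eval x = form (ten (d, l, σ)) X Y Z := by
        rw [eval_frmT]
        unfold form
        refine Finset.sum_congr rfl fun i _ => Finset.sum_congr rfl fun j _ =>
          Finset.sum_congr rfl fun k _ => ?_
        rw [hx0, hx1, hx2, hx3]
        rfl
      rcases lt_abs.1 h with h | h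
      · left
        rw [lt_rat_iff, hform]
        exact h
      · right
        rw [lt_rat_iff]
        change (σ : ℝ) < -(frmT (List.range d) d).eval x
        rw [hform]
        exact h

/-! ### Polynomial time -/

/-- the instance is well-formed, as a Boolean -/
def isInstB (I : Inst) : Bool :=
  decide (0 < I.1) && (decide (I.2.1.length = I.1 * I.1 * I.1) &&
    (!decide (I.2.2.num < 0) && !decide (I.2.2.num.natAbs = 0)))

theorem isInstB_iff (I : Inst) : isInstB I = true ↔ IsInst I := by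
  unfold isInstB IsInst
  simp only [Bool.and_eq_true, decide_eq_true_eq, Bool.not_eq_true', decide_eq_false_iff_not]
  rw [show I.1 * I.1 * I.1 = I.1 ^ 3 by ring, ← Rat.num_pos]
  constructor
  · rintro ⟨h1, h2, h3, h4⟩
    exact ⟨h1, h2, by omega⟩
  · rintro ⟨h1, h2, h3⟩
    exact ⟨h1, h2, by omega, by omega⟩

theorem poly_isInstB : Poly isInstB := by
  unfold isInstB
  have h1 : Poly (fun I : Inst => I.1) := Poly.fst Poly.id
  have h2 : Poly (fun I : Inst => I.2.1) := Poly.fst (Poly.snd Poly.id)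
  have h3 : Poly (fun I : Inst => I.2.2.num) := poly_ratNum (Poly.snd (Poly.snd Poly.id))
  exact Poly.and (Poly.decide_lt (Poly.const 0) h1) (Poly.and
    (Poly.decide_eq (Poly.length h2) (Poly.mul (Poly.mul h1 h1) h1))
    (Poly.and (Poly.not (poly_isNeg h3))
      (Poly.not (Poly.decide_eq (poly_natAbs h3) (Poly.const 0)))))

section

variable {α : Type} [TEnc α]

theorem poly_nrmT {R : α → List ℕ} (hR : Poly R) (c : ℕ) : Poly (fun a => nrmT (R a) c) := by
  unfold nrmT
  have h : Poly (fun p : α × ℕ => Tm.var (4 * p.2 + c)) :=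
    poly_tvar (Poly.add (Poly.mul (Poly.const 4) (Poly.snd Poly.id)) (Poly.const c))
  exact poly_sumTm (Poly.map (F := fun _ i => Tm.mul (Tm.var (4 * i + c)) (Tm.var (4 * i + c))) hR
    (poly_tmul h h))

theorem poly_frmT {R : α → List ℕ} {d : α → ℕ} (hR : Poly R) (hd : Poly d) :
    Poly (fun a => frmT (R a) (d a)) := by
  unfold frmT
  refine poly_sumTm (Poly.flatMap (F := fun a i => (R a).flatMap fun j => (R a).map fun k =>
    Tm.mul (Tm.mul (Tm.mul (Tm.var (4 * ((i * d a + j) * d a + k) + 3)) (Tm.var (4 * i + 0)))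
      (Tm.var (4 * j + 1))) (Tm.var (4 * k + 2))) hR ?_)
  refine Poly.flatMap (F := fun (p : α × ℕ) j => (R p.1).map fun k =>
    Tm.mul (Tm.mul (Tm.mul (Tm.var (4 * ((p.2 * d p.1 + j) * d p.1 + k) + 3))
      (Tm.var (4 * p.2 + 0))) (Tm.var (4 * j + 1))) (Tm.var (4 * k + 2)))
    (hR.comp (Poly.fst Poly.id)) ?_
  refine Poly.map (F := fun (p : (α × ℕ) × ℕ) k =>
    Tm.mul (Tm.mul (Tm.mul (Tm.var (4 * ((p.1.2 * d p.1.1 + p.2) * d p.1.1 + k) + 3))
      (Tm.var (4 * p.1.2 + 0))) (Tm.var (4 * p.2 + 1))) (Tm.var (4 * k + 2)))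
    (hR.comp (Poly.fst (Poly.fst Poly.id))) ?_
  have hi : Poly (fun p : ((α × ℕ) × ℕ) × ℕ => p.1.1.2) :=
    Poly.snd (Poly.fst (Poly.fst Poly.id))
  have hj : Poly (fun p : ((α × ℕ) × ℕ) × ℕ => p.1.2) := Poly.snd (Poly.fst Poly.id)
  have hk : Poly (fun p : ((α × ℕ) × ℕ) × ℕ => p.2) := Poly.snd Poly.id
  have hd' : Poly (fun p : ((α × ℕ) × ℕ) × ℕ => d p.1.1.1) :=
    hd.comp (Poly.fst (Poly.fst (Poly.fst Poly.id)))
  have h4 : ∀ {f : ((α × ℕ) × ℕ) × ℕ → ℕ} (c : ℕ), Poly f →
      Poly (fun p => Tm.var (4 * f p + c)) := fun c hf =>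
    poly_tvar (Poly.add (Poly.mul (Poly.const 4) hf) (Poly.const c))
  exact poly_tmul (poly_tmul (poly_tmul (h4 3 (Poly.add (Poly.mul (Poly.add (Poly.mul hi hd') hj) hd') hk))
    (h4 0 hi)) (h4 1 hj)) (h4 2 hk)

end

theorem poly_rng : Poly rng := by
  have h1 : Poly (fun I : Inst => I.1) := Poly.fst Poly.id
  have h2 : Poly (fun I : Inst => I.2.1) := Poly.fst (Poly.snd Poly.id)
  exact (UPoly.of_le (Poly.min h1 (Poly.length h2)) (UPoly.length h2)
    (fun I => Nat.min_le_right _ _)).range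

theorem poly_phi : Poly phi := by
  unfold phi
  have h1 : Poly (fun I : Inst => I.1) := Poly.fst Poly.id
  have h2 : Poly (fun I : Inst => I.2.1) := Poly.fst (Poly.snd Poly.id)
  have h3 : Poly (fun I : Inst => I.2.2) := Poly.snd (Poly.snd Poly.id)
  have h4 := poly_frmT poly_rng h1
  have h5 := poly_intTm (poly_ratNum h3)
  have h6 := poly_natTm (poly_ratDen h3)
  have hone : Poly (fun _ : Inst => Tm.one) := Poly.const _
  refine poly_and (poly_eq (poly_nrmT poly_rng 0) hone)
    (poly_and (poly_eq (poly_nrmT poly_rng 1) hone)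
      (poly_and (poly_eq (poly_nrmT poly_rng 2) hone) (poly_and (poly_conj ?_)
        (poly_or (poly_lt h5 (poly_tmul h6 h4)) (poly_lt h5 (poly_tmul h6 (poly_tneg h4)))))))
  refine Poly.map (F := fun _ (p : ℚ × ℕ) => eqRat (Tm.var (4 * p.2 + 3)) p.1) (Poly.zipIdx h2) ?_
  exact poly_eqRat (poly_tvar (Poly.add (Poly.mul (Poly.const 4) (Poly.snd (Poly.snd Poly.id)))
    (Poly.const 3))) (Poly.fst (Poly.snd Poly.id))

theorem etr_tt : ETR tt := ⟨fun _ => 0, holds_tt _⟩

theorem inER_exceed : InER (lang SNExceed) := by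
  refine ER.InER.of_poly (φ := fun I => if isInstB I = true then phi I else ff)
    (Poly.ite (Poly.decide_bool poly_isInstB) poly_phi (Poly.const _)) ?_
  intro I
  by_cases h : isInstB I = true
  · have hI := (isInstB_iff I).1 h
    rw [if_pos h, etr_phi hI]
    exact ⟨fun h' => h'.2, fun h' => ⟨hI, h'⟩⟩
  · rw [if_neg h]
    exact ⟨fun h' => absurd ((isInstB_iff I).2 h'.1) h, fun h' => absurd h' not_etr_ff⟩

/-- the formula for the complement -/
def psi (o : Option Inst) : Fm := o.elim tt fun I => if isInstB I = true then phi I else tt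

theorem inFR_bound : InFR (lang SNBound) := by
  refine ⟨fun w => psi (unbits Inst w), ?_, fun w => ?_⟩
  · refine polyTime_bits (g := fun w => psi (unbits Inst w)) ?_
    exact Poly.optElim (h := fun _ I => if isInstB I = true then phi I else tt) poly_unbits
      (Poly.const _) (Poly.ite (Poly.decide_bool (poly_isInstB.comp (Poly.snd Poly.id)))
        (poly_phi.comp (Poly.snd Poly.id)) (Poly.const _))
  · rw [Set.mem_compl_iff, mem_lang_iff]
    change _ ↔ ETR (psi (unbits Inst w))
    cases hx : unbits Inst w with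
    | none =>
      have h1 : psi none = tt := rfl
      rw [h1]
      simp [etr_tt]
    | some I =>
      have h1 : psi (some I) = if isInstB I = true then phi I else tt := rfl
      rw [h1]
      simp only [Option.some.injEq, exists_eq_left']
      by_cases h : isInstB I = true
      · have hI := (isInstB_iff I).1 h
        rw [if_pos h, etr_phi hI, ← not_le]
        exact not_congr ⟨fun h' => h'.2, fun h' => ⟨hI, h'⟩⟩
      · rw [if_neg h]
        exact ⟨fun _ => etr_tt, fun _ h' => h ((isInstB_iff I).2 h'.1)⟩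

/-! ### Hardness -/

theorem hard_exceed : ERHard (lang SNExceed) :=
  ERHard.of_sys (f := red) (poly_red Poly.id) fun S => by
    rw [red_correct]
    exact ⟨fun h => ⟨isInst_red S, h⟩, fun h => h.2⟩

theorem hard_bound (L : Set (List Bool)) (hL : InFR L) : Reduces L (lang SNBound) := by
  obtain ⟨g, hg, hL⟩ := hL
  have h1 : PC (id : List Bool → List Bool) (bits : Fm → List Bool) g :=
    H642R2.TMSim.polyTime_toPC hg
  have h2 : Poly (fun φ : Fm => red (sysOf φ)) := Poly.comp (poly_red Poly.id) (poly_sysOf Poly.id)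
  have h3 : PC (id : List Bool → List Bool) (bits : Inst → List Bool)
      (fun x => red (sysOf (g x))) :=
    PC.comp (g := fun φ : Fm => red (sysOf φ)) (eb := (bits : Fm → List Bool)) h2 h1
  have h4 : PC (id : List Bool → List Bool) (id : List Bool → List Bool)
    (fun x => bits (red (sysOf (g x)))) := h3
  refine ⟨fun x => bits (red (sysOf (g x))), PC.toPolyTime h4, fun x => ?_⟩
  have h5 : x ∈ L ↔ ¬ ETR (g x) := by
    rw [← hL]
    simp
  rw [h5, ← sat_sysOf, red_correct, bits_mem_lang]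
  unfold SNBound
  rw [not_lt]
  exact ⟨fun h => ⟨isInst_red _, h⟩, fun h => h.2⟩

end Pool.Agent.NPC.ER.SN19
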