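import Pool.Agent.U19.SN.Tensor
import Pool.Agent.H532R2.IntPoly
import Pool.Agent.H671R2.PolyAuto
import Pool.Agent.ER.Build
import Pool.Agent.ER.Hard

/-!
# The reduction
-/

namespace Pool.Agent.NPC.ER.SN19

open Pool.Agent.NPC.H532

/-! ### The dense list of entries -/

theorem getD_flatMap_range {α : Type} {m : ℕ} (f : ℕ → List α) (hf : ∀ i, (f i).length = m) (z : α) :
    ∀ D i j : ℕ, i < D → j < m → ((List.range D).flatMap f).getD (i * m + j) z = (f i).getD j z := by
  have hlen : ∀ D, ((List.range D).flatMap f).length = D * m := by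
    intro D
    induction D with
    | zero => simp
    | succ D ih =>
      rw [List.range_succ, List.flatMap_append, List.length_append, ih]
      simp [hf]
      ring
  intro D
  induction D with
  | zero => intro i j hi; omega
  | succ D ih =>
    intro i j hi hj
    rw [List.range_succ, List.flatMap_append, List.getD_eq_getElem?_getD,
      List.getD_eq_getElem?_getD]
    by_cases h : i < D
    · have h1 : i * m + j < ((List.range D).flatMap f).length := by
        rw [hlen]
        calc i * m + j < i * m + m := by omega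
          _ = (i + 1) * m := by ring
          _ ≤ D * m := Nat.mul_le_mul_right m h
      rw [List.getElem?_append_left h1, ← List.getD_eq_getElem?_getD, ← List.getD_eq_getElem?_getD]
      exact ih i j h hj
    · have h2 : i = D := by omega
      subst h2
      rw [List.getElem?_append_right (by rw [hlen]; omega), hlen]
      simp

/-- the list of all entries of a tensor -/
def ents (R : List ℕ) (LL : List BF) : List ℚ :=
  R.flatMap fun i => R.flatMap fun j => R.map fun k => ((coef (LL.getD k []) i j : ℤ) : ℚ)

theorem length_ents (D : ℕ) (LL : List BF) : (ents (List.range D) LL).length = D ^ 3 := by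
  unfold ents
  simp [List.length_flatMap]
  ring

theorem getD_ents {D : ℕ} (LL : List BF) {i j k : ℕ} (hi : i < D) (hj : j < D) (hk : k < D) :
    (ents (List.range D) LL).getD ((i * D + j) * D + k) 0 = ((coef (LL.getD k []) i j : ℤ) : ℚ) := by
  unfold ents
  have e1 : (i * D + j) * D + k = i * (D * D) + (j * D + k) := by ring
  have h1 : j * D + k < D * D := by
    calc j * D + k < j * D + D := by omega
      _ = (j + 1) * D := by ring
      _ ≤ D * D := Nat.mul_le_mul_right D hj
  rw [e1, getD_flatMap_range (m := D * D) _ _ _ D i _ hi h1]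
  · rw [getD_flatMap_range (m := D) _ (by simp) _ D j k hj hk]
    rw [List.getD_eq_getElem _ _ (by simpa using hk)]
    simp
  · intro i
    simp [List.length_flatMap]

/-! ### The forms are in range -/

theorem ok_compl {n : ℕ} {t : ℕ × ℕ × ℤ} : ∀ l ∈ compl n t, Ok n l := by
  intro l hl
  unfold compl at hl
  simp only [List.mem_flatMap, List.mem_range] at hl
  obtain ⟨a, ha, b, hb, h⟩ := hl
  split_ifs at h with h1
  · simp at h
  · simp only [List.mem_singleton] at h
    subst h
    intro s hs
    simp only [List.mem_singleton] at hs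
    subst hs
    exact ⟨ha, hb⟩

theorem ok_forms {n e : ℕ} {qs : List BF} (he : e < n) (hqs : ∀ q ∈ qs, Ok n q) :
    ∀ l ∈ forms n e qs, Ok n l := by
  intro l hl
  unfold forms at hl
  simp only [List.mem_cons, List.mem_append, List.mem_flatMap, List.mem_map, List.mem_range] at hl
  rcases hl with rfl | rfl | rfl | ⟨q, hq, hl⟩ | ⟨a, ha, b, hb, rfl⟩
  · intro t ht
    simp only [List.mem_singleton] at ht
    subst ht
    exact ⟨he, he⟩
  · intro t ht
    simp only [List.mem_singleton] at ht
    subst ht
    exact ⟨he, he⟩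
  · intro t ht
    simp only [List.mem_map, List.mem_range] at ht
    obtain ⟨i, hi, rfl⟩ := ht
    exact ⟨hi, hi⟩
  · unfold quadL at hl
    simp only [List.mem_flatMap] at hl
    obtain ⟨t, ht, t', ht', hl⟩ := hl
    unfold pairL at hl
    rw [List.mem_cons, List.mem_append] at hl
    rcases hl with rfl | hl | hl
    · intro s hs
      simp only [List.mem_cons, List.not_mem_nil, or_false] at hs
      rcases hs with rfl | rfl
      · exact hqs q hq _ ht
      · exact hqs q hq t' ht'
    · exact ok_compl l hl
    · exact ok_compl l hl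
  · intro t ht
    simp only [List.mem_singleton] at ht
    subst ht
    exact ⟨ha, hb⟩

/-! ### The reduction -/

/-- the bilinear forms of a system -/
def LL (S : List Con) : List BF := forms (dimn S) (KK S + 1) (qs S)

/-- the dimension of the tensor -/
def dd (S : List Con) : ℕ := dimn S + (LL S).length

/-- the instance -/
def red (S : List Con) : Inst := (dd S, ents (List.range (dd S)) (LL S), ((del (qs S) + 1 : ℤ) : ℚ))

theorem isInst_ents {D : ℕ} {l : List BF} {s : ℕ} (hD : 0 < D) :
    IsInst (D, ents (List.range D) l, ((s + 1 : ℤ) : ℚ)) := by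
  refine ⟨hD, ?_, ?_⟩
  · simp only
    exact length_ents D l
  · simp only
    positivity

theorem ten_ents (D : ℕ) (l : List BF) (σ : ℚ) :
    ten (D, ents (List.range D) l, σ) = tenL (d := D) l := by
  funext i j k
  unfold ten tenL
  simp only
  rw [getD_ents l i.2 j.2 k.2]
  push_cast
  rfl

theorem isInst_red (S : List Con) : IsInst (red S) :=
  isInst_ents (by unfold dd dimn; omega)

theorem red_correct (S : List Con) : Sat S ↔ ((red S).2.2 : ℝ) < specNorm (ten (red S)) := by
  rw [sat_iff_forms]
  have h1 := lt_specNorm_tenL (LL := LL S) (n := dimn S) (d := dd S) (σ := (del (qs S) : ℝ) + 1)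
    (ok_forms (by unfold dimn; omega) (qs_ok S)) (by unfold dd; omega)
    (by unfold dd dimn; omega) (by unfold dd; omega) (by positivity)
  rw [← ten_ents (dd S) (LL S) ((del (qs S) + 1 : ℤ) : ℚ)] at h1
  have h2 : ((((del (qs S) + 1 : ℤ) : ℚ)) : ℝ) = (del (qs S) : ℝ) + 1 := by
    push_cast
    rfl
  have h3 : (((red S).2.2 : ℚ) : ℝ) = ((((del (qs S) + 1 : ℤ) : ℚ)) : ℝ) := rfl
  rw [h3, h2]
  exact h1.symm

/-! ### Polynomial time -/

attribute [local fun_prop] Poly_neg Poly_mulZ Poly_addZ Poly_sumZ Poly_natAbs

/-- `compl`, with the list of coordinates as an argument -/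
def complR (R : List ℕ) (t : ℕ × ℕ × ℤ) : List BF :=
  R.flatMap fun a => R.flatMap fun b => if a = t.1 ∧ b = t.2.1 then [] else [[(a, b, t.2.2)]]

/-- `quadL`, with the list of coordinates as an argument -/
def quadLR (R : List ℕ) (q : BF) : List BF :=
  q.flatMap fun t => q.flatMap fun t' =>
    [t, (t'.1, t'.2.1, - t'.2.2)] :: (complR R t ++ complR R t')

/-- `forms`, with the list of coordinates as an argument -/
def formsR (R : List ℕ) (e : ℕ) (qs : List BF) : List BF :=
  [(e, e, 1)] :: [(e, e, 1)] :: (R.map fun i => (i, i, (del qs : ℤ))) ::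
    (qs.flatMap (quadLR R) ++ R.flatMap fun a => R.map fun b => [(a, b, 1)])

theorem forms_eq (n e : ℕ) (qs : List BF) : forms n e qs = formsR (List.range n) e qs := rfl

section

variable {α : Type} [TEnc α]

@[fun_prop]
theorem poly_complR {R : α → List ℕ} {t : α → ℕ × ℕ × ℤ} (hR : Poly R) (ht : Poly t) :
    Poly (fun a => complR (R a) (t a)) := by
  unfold complR
  fun_prop

@[fun_prop]
theorem poly_quadLR {R : α → List ℕ} {q : α → BF} (hR : Poly R) (hq : Poly q) :
    Poly (fun a => quadLR (R a) (q a)) := by
  unfold quadLR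
  fun_prop

@[fun_prop]
theorem poly_sq {m : α → ℕ} (hm : Poly m) : Poly (fun a => m a ^ 2) :=
  (Poly.mul hm hm).congr fun a => by rw [pow_two]

@[fun_prop]
theorem poly_cs {q : α → BF} (hq : Poly q) : Poly (fun a => cs (q a)) := by
  unfold cs
  fun_prop

@[fun_prop]
theorem poly_del {q : α → List BF} (hq : Poly q) : Poly (fun a => del (q a)) := by
  unfold del
  fun_prop

@[fun_prop]
theorem poly_formsR {R : α → List ℕ} {e : α → ℕ} {q : α → List BF} (hR : Poly R) (he : Poly e)
    (hq : Poly q) : Poly (fun a => formsR (R a) (e a) (q a)) := by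
  unfold formsR
  fun_prop

@[fun_prop]
theorem poly_coef {l : α → BF} {i j : α → ℕ} (hl : Poly l) (hi : Poly i) (hj : Poly j) :
    Poly (fun a => coef (l a) (i a) (j a)) := by
  unfold coef
  fun_prop

@[fun_prop]
theorem poly_castQ {f : α → ℤ} (hf : Poly f) : Poly (fun a => ((f a : ℤ) : ℚ)) :=
  Poly.of_toT ((Poly.toT' (Poly.pair hf (Poly.const (1 : ℕ)))).congr fun a => by
    change toT (f a, 1) = toT (((f a : ℤ) : ℚ).num, ((f a : ℤ) : ℚ).den)
    simp)

@[fun_prop]
theorem poly_ents {R : α → List ℕ} {l : α → List BF} (hR : Poly R) (hl : Poly l) :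
    Poly (fun a => ents (R a) (l a)) := by
  unfold ents
  fun_prop

theorem qcon_eq (f : ℕ → ℕ) (c : Con) : qcon f c =
    if c.code.1 = 0 then [(f c.code.2.1, 0, 8), (0, 0, -1)]
    else if c.code.1 = 1 then [(f c.code.2.1, 0, 1), (f c.code.2.2.1, 0, 1),
      (f c.code.2.2.2, 0, -1)]
    else [(f c.code.2.1, f c.code.2.2.1, 1), (f c.code.2.2.2, 0, -1)] := by
  cases c <;> rfl

@[fun_prop]
theorem poly_con_code' {c : α → Con} (hc : Poly c) : Poly (fun a => (c a).code) := poly_con_code hc

@[fun_prop]
theorem poly_qcon {f : α → ℕ → ℕ} {c : α → Con} (hf : Poly (fun p : α × ℕ => f p.1 p.2))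
    (hc : Poly c) : Poly (fun a => qcon (f a) (c a)) := by
  have h1 : Poly (fun a => f a (c a).code.2.1) :=
    hf.comp (f := fun a => (a, (c a).code.2.1)) (by fun_prop)
  have h2 : Poly (fun a => f a (c a).code.2.2.1) :=
    hf.comp (f := fun a => (a, (c a).code.2.2.1)) (by fun_prop)
  have h3 : Poly (fun a => f a (c a).code.2.2.2) :=
    hf.comp (f := fun a => (a, (c a).code.2.2.2)) (by fun_prop)
  simp only [qcon_eq]
  fun_prop

@[fun_prop]
theorem poly_sy {q : α → BF} (hq : Poly q) : Poly (fun a => sy (q a)) := by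
  unfold sy
  fun_prop

@[fun_prop]
theorem poly_qbd {f g : α → ℕ} (hf : Poly f) (hg : Poly g) : Poly (fun a => qbd (f a) (g a)) := by
  unfold qbd
  fun_prop

@[fun_prop]
theorem poly_svars {S : α → List Con} (hS : Poly S) : Poly (fun a => svars (S a)) := by
  refine Poly.flatMap (F := fun _ c => Con.vars c) hS ?_
  have h0 : Poly (fun p : α × Con => p.2.code) := poly_con_code (Poly.snd Poly.id)
  have h1 := Poly.fst (Poly.snd h0)
  refine (Poly.ite (Poly.decide_eq (Poly.fst h0) (Poly.const 0)) (Poly.cons h1 (Poly.const []))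
    (Poly.cons h1 (Poly.cons (Poly.fst (Poly.snd (Poly.snd h0)))
      (Poly.cons (Poly.snd (Poly.snd (Poly.snd h0))) (Poly.const []))))).congr fun a => ?_
  cases a.2 <;> rfl

theorem idxOf_zipIdx (y : ℕ) (l : List ℕ) : ∀ k : ℕ,
    ((((l.zipIdx k).filter (fun p => decide (p.1 = y))).head?).map fun p => p.2).getD
      (k + l.length) = k + l.idxOf y := by
  induction l with
  | nil => intro k; simp
  | cons a l ih =>
    intro k
    rw [List.zipIdx_cons]
    by_cases h : a = y
    · subst h
      rw [List.filter_cons_of_pos (by simp)]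
      simp
    · rw [List.filter_cons_of_neg (by simpa using h)]
      have h1 := ih (k + 1)
      have h2 : (a :: l).idxOf y = l.idxOf y + 1 := by
        rw [List.idxOf_cons_ne _ h]
      rw [h2, List.length_cons]
      have e1 : k + (l.length + 1) = k + 1 + l.length := by ring
      have e2 : k + (l.idxOf y + 1) = k + 1 + l.idxOf y := by ring
      rw [e1, e2]
      exact h1

@[fun_prop]
theorem poly_idxOf {l : α → List ℕ} {v : α → ℕ} (hl : Poly l) (hv : Poly v) :
    Poly (fun a => (l a).idxOf (v a)) := by
  have h : (fun a => (l a).idxOf (v a)) = fun a =>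
      (((((l a).zipIdx).filter (fun p => decide (p.1 = v a))).head?).map fun p => p.2).getD
        (l a).length := by
    funext a
    have := idxOf_zipIdx (v a) (l a) 0
    rw [zero_add, zero_add] at this
    exact this.symm
  rw [h]
  fun_prop

@[fun_prop]
theorem poly_bsys' {S : α → List Con} (hS : Poly S) : Poly (fun a => bsys (S a)) := poly_bsys hS

theorem upoly_KK {S : α → List Con} (hS : Poly S) : UPoly (fun a => KK (S a)) :=
  UPoly.add (UPoly.mul (UPoly.const 11) (UPoly.length (poly_bsys hS))) (UPoly.const 7)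

@[fun_prop]
theorem poly_KK {S : α → List Con} (hS : Poly S) : Poly (fun a => KK (S a)) := (upoly_KK hS).toPoly

@[fun_prop]
theorem poly_fc {S : α → List Con} {i : α → ℕ} (hS : Poly S) (hi : Poly i) :
    Poly (fun a => fc (S a) (i a)) := by
  unfold fc
  fun_prop

@[fun_prop]
theorem poly_rangeKK {S : α → List Con} (hS : Poly S) : Poly (fun a => List.range (KK (S a))) :=
  (upoly_KK hS).range

theorem poly_chain {S : α → List Con} (hS : Poly S) : Poly (fun a => chain (KK (S a))) := by
  refine Poly.cons (Poly.const _) ?_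
  refine Poly.map (F := fun _ j => Con.mul j j (j + 1)) (poly_rangeKK hS) ?_
  exact poly_con_mul (Poly.snd Poly.id) (Poly.snd Poly.id) (Poly.succ (Poly.snd Poly.id))

attribute [local irreducible] fc KK bsys svars

theorem poly_qlist {S : α → List Con} (hS : Poly S) : Poly (fun a => qlist (S a)) := by
  unfold qlist
  refine Poly.append ?_ (Poly.append ?_ (Poly.append ?_ ?_))
  · have hfc1 : Poly (fun p : (α × Con) × ℕ => fc (S p.1.1) p.2) :=
      poly_fc (S := fun p : (α × Con) × ℕ => S p.1.1) (i := fun p => p.2)
        (hS.comp (Poly.fst (Poly.fst Poly.id))) (Poly.snd Poly.id)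
    exact Poly.map (F := fun a c => qcon (fc (S a)) c) (poly_bsys hS)
      (poly_qcon (f := fun (p : α × Con) i => fc (S p.1) i) (c := fun p : α × Con => p.2)
        hfc1 (Poly.snd Poly.id))
  · have hfc : Poly (fun p : α × ℕ => fc (S p.1) p.2) :=
      poly_fc (S := fun p : α × ℕ => S p.1) (i := fun p => p.2)
        (hS.comp (Poly.fst Poly.id)) (Poly.snd Poly.id)
    exact Poly.map (F := fun a i => qbd (fc (S a) i) (fc (S a) i + 1))
      (poly_svars (poly_bsys hS)) (poly_qbd hfc (Poly.succ hfc))
  · exact Poly.map (F := fun _ c => qcon (fun j => j + 1) c) (poly_chain hS)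
      (poly_qcon (f := fun _ i => i + 1) (c := fun p : α × Con => p.2)
        (Poly.succ (Poly.snd Poly.id)) (Poly.snd Poly.id))
  · exact Poly.cons (poly_qbd (Poly.add (poly_KK hS) (Poly.const 1))
      (Poly.add (poly_KK hS) (Poly.const 2))) (Poly.const [])

theorem poly_qs {S : α → List Con} (hS : Poly S) : Poly (fun a => qs (S a)) := by
  have h := poly_qlist hS
  exact Poly.map (F := fun _ q => sy q) h (poly_sy (Poly.snd Poly.id))

theorem upoly_dimn {S : α → List Con} (hS : Poly S) : UPoly (fun a => dimn (S a)) :=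
  UPoly.add (UPoly.add (upoly_KK hS) (UPoly.const 3))
    (UPoly.mul (UPoly.const 2) (UPoly.length (poly_svars (poly_bsys hS))))

theorem poly_LL {S : α → List Con} (hS : Poly S) : Poly (fun a => LL (S a)) := by
  have h : Poly (fun a => formsR (List.range (dimn (S a))) (KK (S a) + 1) (qs (S a))) :=
    poly_formsR (upoly_dimn hS).range (Poly.add (poly_KK hS) (Poly.const 1)) (poly_qs hS)
  exact h.congr fun a => by rw [LL, forms_eq]

theorem poly_red {S : α → List Con} (hS : Poly S) : Poly (fun a => red (S a)) := by
  have h1 := poly_LL hS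
  have h2 : UPoly (fun a => dd (S a)) := UPoly.add (upoly_dimn hS) (UPoly.length h1)
  have h3 := h2.toPoly
  have h4 := h2.range
  unfold red
  have h5 := poly_del (poly_qs hS)
  exact Poly.pair h3 (Poly.pair (poly_ents h4 h1) (poly_castQ (Poly_addZ (Poly_ofNat h5)
    (Poly.const 1))))

end

end Pool.Agent.NPC.ER.SN19
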