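import Pool.Agent.U19.SN.Core
import Pool.Agent.ER.GapSys

/-!
# From systems of constraints to a quartic form
-/

namespace Pool.Agent.NPC.ER.SN19

open Pool.Agent.NPC.ER

/-- the quadratic form of a constraint; `f` gives the coordinates of the variables, the coordinate
`0` is used for homogenisation -/
def qcon (f : ℕ → ℕ) : Con → BF
  | Con.one i => [(f i, 0, 8), (0, 0, -1)]
  | Con.add i j k => [(f i, 0, 1), (f j, 0, 1), (f k, 0, -1)]
  | Con.mul i j k => [(f i, f j, 1), (f k, 0, -1)]

/-- the quadratic form `4 x_a² + 4 x_b² - x_0²` -/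
def qbd (a b : ℕ) : BF := [(a, a, 4), (b, b, 4), (0, 0, -1)]

/-- symmetrisation, with a factor -/
def sy (q : BF) : BF :=
  q.map (fun t => (t.1, t.2.1, 4 * t.2.2)) ++ q.map (fun t => (t.2.1, t.1, 4 * t.2.2))

theorem ev_append (p q : BF) (x y : ℕ → ℝ) : ev (p ++ q) x y = ev p x y + ev q x y := by
  simp [ev]

theorem ev_sy (q : BF) (x y : ℕ → ℝ) : ev (sy q) x y = 4 * (ev q x y + ev q y x) := by
  unfold sy
  rw [ev_append, mul_add]
  congr 1
  · induction q with
    | nil => simp [ev]
    | cons t q ih =>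
      simp only [ev, List.map_cons, List.sum_cons] at ih ⊢
      rw [ih]
      simp only [tev]
      push_cast
      ring
  · induction q with
    | nil => simp [ev]
    | cons t q ih =>
      simp only [ev, List.map_cons, List.sum_cons] at ih ⊢
      rw [ih]
      simp only [tev]
      push_cast
      ring

theorem symm_sy (q : BF) : Symm (sy q) := by
  intro x y
  rw [ev_sy, ev_sy, add_comm]

theorem ok_sy {n : ℕ} {q : BF} (h : Ok n q) : Ok n (sy q) := by
  intro t ht
  unfold sy at ht
  rw [List.mem_append, List.mem_map, List.mem_map] at ht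
  rcases ht with ⟨t', h1, rfl⟩ | ⟨t', h1, rfl⟩
  · exact h t' h1
  · exact (h t' h1).symm

theorem ev_qcon {f : ℕ → ℕ} {v : ℕ → ℝ} (h0 : v 0 = 1) (c : Con) :
    ev (qcon f c) v v = c.err (fun i => v (f i)) := by
  cases c <;> simp [ev, tev, qcon, Con.err, h0] <;> ring

theorem ev_qbd {v : ℕ → ℝ} (h0 : v 0 = 1) (a b : ℕ) :
    ev (qbd a b) v v = 4 * v a ^ 2 + 4 * v b ^ 2 - 1 := by
  simp [ev, tev, qbd, h0]
  ring

/-- the constraints for repeated squaring -/
def chain (K : ℕ) : List Con := Con.one 0 :: (List.range K).map fun j => Con.mul j j (j + 1)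

/-- the number of squarings -/
def KK (S : List Con) : ℕ := gapK (bsys S).length

/-- the coordinate of a variable -/
def fc (S : List Con) (i : ℕ) : ℕ := KK S + 3 + 2 * (svars (bsys S)).idxOf i

/-- the quadratic forms -/
def qlist (S : List Con) : List BF :=
  (bsys S).map (qcon (fc S)) ++ ((svars (bsys S)).map (fun i => qbd (fc S i) (fc S i + 1)) ++
    ((chain (KK S)).map (qcon (fun j => j + 1)) ++ [qbd (KK S + 1) (KK S + 2)]))

/-- the symmetric bilinear forms -/
def qs (S : List Con) : List BF := (qlist S).map sy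

/-- the number of coordinates -/
def dimn (S : List Con) : ℕ := KK S + 3 + 2 * (svars (bsys S)).length

theorem qcon_ok {f : ℕ → ℕ} {n : ℕ} (hn : 0 < n) {c : Con} (hf : ∀ i ∈ c.vars, f i < n) :
    Ok n (qcon f c) := by
  intro t ht
  cases c <;> simp [qcon, Con.vars] at ht hf <;> rcases ht with rfl | rfl | rfl <;>
    simp_all

theorem qlist_ok (S : List Con) : ∀ q ∈ qlist S, Ok (dimn S) q := by
  intro q hq
  unfold qlist at hq
  rw [List.mem_append, List.mem_append, List.mem_append] at hq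
  have h0 : 0 < dimn S := by unfold dimn; omega
  have hfc : ∀ i ∈ svars (bsys S), fc S i + 1 < dimn S := by
    intro i hi
    have := List.idxOf_lt_length_of_mem hi
    unfold fc dimn
    omega
  rcases hq with hq | hq | hq | hq
  · obtain ⟨c, hc, rfl⟩ := List.mem_map.1 hq
    exact qcon_ok h0 fun i hi => (Nat.lt_succ_self _).trans (hfc i (mem_svars hc hi))
  · obtain ⟨i, hi, rfl⟩ := List.mem_map.1 hq
    have := hfc i hi
    intro t ht
    simp only [qbd, List.mem_cons, List.not_mem_nil, or_false] at ht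
    rcases ht with rfl | rfl | rfl
    · exact ⟨by simp only; omega, by simp only; omega⟩
    · exact ⟨by simp only; omega, by simp only; omega⟩
    · exact ⟨h0, h0⟩
  · obtain ⟨c, hc, rfl⟩ := List.mem_map.1 hq
    refine qcon_ok h0 ?_
    intro i hi
    unfold chain at hc
    rw [List.mem_cons, List.mem_map] at hc
    unfold dimn
    rcases hc with rfl | ⟨j, hj, rfl⟩
    · simp only [Con.vars, List.mem_cons, List.not_mem_nil, or_false] at hi
      omega
    · simp only [Con.vars, List.mem_cons, List.not_mem_nil, or_false] at hi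
      rw [List.mem_range] at hj
      omega
  · rw [List.mem_singleton] at hq
    subst hq
    intro t ht
    unfold dimn
    simp only [qbd, List.mem_cons, List.not_mem_nil, or_false] at ht
    rcases ht with rfl | rfl | rfl <;> simp only <;> omega

theorem qs_ok (S : List Con) : ∀ q ∈ qs S, Ok (dimn S) q := by
  intro q hq
  obtain ⟨q', hq', rfl⟩ := List.mem_map.1 hq
  exact ok_sy (qlist_ok S q' hq')

theorem qs_symm (S : List Con) : ∀ q ∈ qs S, Symm q := by
  intro q hq
  obtain ⟨q', hq', rfl⟩ := List.mem_map.1 hq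
  exact symm_sy q'

theorem sq_qs (S : List Con) (w : ℕ → ℝ) :
    sq (qs S) w w = ((qlist S).map fun q => (8 * ev q w w) ^ 2).sum := by
  unfold sq qs
  rw [List.map_map]
  congr 1
  apply List.map_congr_left
  intro q _
  simp only [Function.comp, ev_sy]
  ring

/-- the analysis of the chain -/
theorem chain_bound {u : ℕ → ℝ} {a : ℝ} {K : ℕ} (ha : a ^ 2 ≤ 8 / 31) (hu : |u K| = a)
    (h0 : |8 * u 0 - 1| < a ^ 2 / 8)
    (h : ∀ j < K, |u j * u j - u (j + 1)| < a ^ 2 / 8) : a ≤ 2 * (1 / 4) ^ 2 ^ K := by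
  have key : ∀ j ≤ K, |u j| ≤ (1 / 4) ^ 2 ^ j + a ^ 2 / 2 := by
    intro j
    induction j with
    | zero =>
      intro _
      rw [abs_lt] at h0
      rw [abs_le]
      norm_num
      constructor <;> nlinarith
    | succ j ih =>
      intro hj
      have h1 := ih (by omega)
      have h2 := h j (by omega)
      set V : ℝ := (1 / 4) ^ 2 ^ j with hV
      have hV0 : 0 < V := by positivity
      have hV1 : V ≤ 1 / 4 := by
        calc V ≤ (1 / 4) ^ 1 := pow_le_pow_of_le_one (by norm_num) (by norm_num) Nat.one_le_two_pow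
          _ = 1 / 4 := by norm_num
      have hV2 : ((1 : ℝ) / 4) ^ 2 ^ (j + 1) = V ^ 2 := by
        rw [hV, ← pow_mul, pow_succ]
      rw [hV2]
      have h3 : u j * u j ≤ (V + a ^ 2 / 2) ^ 2 := by
        have h4 := abs_mul_abs_self (u j)
        rw [← h4]
        nlinarith [abs_nonneg (u j)]
      have h5 : |u (j + 1)| ≤ u j * u j + a ^ 2 / 8 := by
        rw [abs_lt] at h2
        rw [abs_le]
        have := mul_self_nonneg (u j)
        constructor <;> linarith
      have h6 : 0 ≤ a ^ 2 := sq_nonneg a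
      nlinarith
  have h1 := key K le_rfl
  rw [hu] at h1
  have ha0 : 0 ≤ a := by rw [← hu]; exact abs_nonneg _
  have ha1 : a ≤ 1 := by nlinarith
  nlinarith

theorem sat_of_neg {S : List Con} {w : ℕ → ℝ} (h : sq (qs S) w w < w (KK S + 1) ^ 4) : Sat S := by
  set K := KK S with hK
  rw [sq_qs] at h
  have hall : ∀ q ∈ qlist S, |ev q w w| < w (K + 1) ^ 2 / 8 := by
    intro q hq
    have h1 : (8 * ev q w w) ^ 2 ≤ ((qlist S).map fun q => (8 * ev q w w) ^ 2).sum := by
      refine List.single_le_sum ?_ _ (List.mem_map_of_mem hq)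
      intro x hx
      obtain ⟨q', _, rfl⟩ := List.mem_map.1 hx
      positivity
    have h2 : (8 * ev q w w) ^ 2 < (w (K + 1) ^ 2) ^ 2 := by
      rw [← pow_mul]
      exact lt_of_le_of_lt h1 h
    have h3 := abs_lt_of_sq_lt_sq h2 (by positivity)
    rw [abs_mul, abs_of_pos (by norm_num : (0 : ℝ) < 8)] at h3
    linarith
  have m4 : qbd (K + 1) (K + 2) ∈ qlist S := by
    unfold qlist
    simp [← hK]
  have hw0 : w 0 ≠ 0 := by
    intro h0
    have h1 := hall _ m4
    have h2 : ev (qbd (K + 1) (K + 2)) w w = 4 * w (K + 1) ^ 2 + 4 * w (K + 2) ^ 2 := by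
      simp [ev, tev, qbd, h0]
      ring
    rw [h2, abs_of_nonneg (by positivity)] at h1
    nlinarith [sq_nonneg (w (K + 1)), sq_nonneg (w (K + 2))]
  set v : ℕ → ℝ := fun i => (w 0)⁻¹ * w i with hv
  have hv0 : v 0 = 1 := by
    simp only [hv]
    exact inv_mul_cancel₀ hw0
  set a : ℝ := |v (K + 1)| with ha
  have hallv : ∀ q ∈ qlist S, |ev q v v| < a ^ 2 / 8 := by
    intro q hq
    have h1 := hall q hq
    have hpos : 0 < (w 0)⁻¹ * (w 0)⁻¹ := mul_self_pos.2 (inv_ne_zero hw0)
    rw [hv, ev_smul, abs_mul, abs_of_pos hpos, ha, sq_abs, hv]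
    calc (w 0)⁻¹ * (w 0)⁻¹ * |ev q w w| < (w 0)⁻¹ * (w 0)⁻¹ * (w (K + 1) ^ 2 / 8) :=
          mul_lt_mul_of_pos_left h1 hpos
      _ = _ := by ring
  have ha31 : a ^ 2 ≤ 8 / 31 := by
    have h1 := hallv _ m4
    rw [ev_qbd hv0, abs_lt] at h1
    have h2 : v (K + 1) ^ 2 = a ^ 2 := by rw [ha, sq_abs]
    rw [h2] at h1
    nlinarith [sq_nonneg (v (K + 2))]
  have hchain : ∀ c ∈ chain K, |c.err (fun i => v (i + 1))| < a ^ 2 / 8 := by
    intro c hc
    have h1 : qcon (fun j => j + 1) c ∈ qlist S := by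
      unfold qlist
      rw [← hK]
      refine List.mem_append_right _ (List.mem_append_right _ (List.mem_append_left _ ?_))
      exact List.mem_map_of_mem hc
    have h2 := hallv _ h1
    rwa [ev_qcon hv0] at h2
  have hb : a ≤ 2 * (1 / 4) ^ 2 ^ K := by
    apply chain_bound (u := fun i => v (i + 1)) ha31 rfl
    · exact hchain (Con.one 0) (by simp [chain])
    · intro j hj
      have := hchain (Con.mul j j (j + 1)) (by
        unfold chain
        exact List.mem_cons_of_mem _ (List.mem_map.2 ⟨j, List.mem_range.2 hj, rfl⟩))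
      exact this
  obtain ⟨w', hw'⟩ := holds_of_approx (S := bsys S) (w := fun i => v (fc S i)) (by
    intro i hi
    have h1 : qbd (fc S i) (fc S i + 1) ∈ qlist S := by
      unfold qlist
      exact List.mem_append_right _ (List.mem_append_left _ (List.mem_map.2 ⟨i, hi, rfl⟩))
    have h2 := hallv _ h1
    rw [ev_qbd hv0, abs_lt] at h2
    have h3 : v (fc S i) ^ 2 ≤ 1 := by nlinarith [sq_nonneg (v (fc S i + 1))]
    exact (sq_le_one_iff_abs_le_one _).1 h3) (by
    intro c hc
    have h1 : qcon (fc S) c ∈ qlist S := by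
      unfold qlist
      exact List.mem_append_left _ (List.mem_map_of_mem hc)
    have h2 := hallv _ h1
    rw [ev_qcon hv0] at h2
    change |c.err fun i => v (fc S i)| * 2 ^ 2 ^ K ≤ 1
    have ha0 : 0 ≤ a := abs_nonneg _
    have h3 : a ^ 2 ≤ (2 * (1 / 4) ^ 2 ^ K) ^ 2 := pow_le_pow_left₀ ha0 hb 2
    set P : ℝ := 2 ^ 2 ^ K with hP
    have hP1 : 1 ≤ P := one_le_pow₀ (by norm_num)
    have h4 : ((1 : ℝ) / 4) ^ 2 ^ K = 1 / (P * P) := by
      rw [hP, ← mul_pow, one_div, one_div, inv_pow]
      norm_num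
    rw [h4] at h3
    have h5 : (2 * (1 / (P * P))) ^ 2 ≤ 4 / P := by
      have : (2 * (1 / (P * P))) ^ 2 = 4 / P * (1 / P ^ 3) := by
        field_simp
        norm_num
      rw [this]
      have h6 : 1 / P ^ 3 ≤ 1 := by
        rw [div_le_one (by positivity)]
        exact one_le_pow₀ hP1
      have h7 : (0 : ℝ) ≤ 4 / P := by positivity
      nlinarith
    have h8 : |c.err fun i => v (fc S i)| ≤ 1 / P := by
      have : (4 / P) / 8 ≤ 1 / P := by
        rw [div_div, div_le_div_iff₀ (by positivity) (by positivity)]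
        nlinarith
      linarith
    calc |c.err fun i => v (fc S i)| * P ≤ 1 / P * P := mul_le_mul_of_nonneg_right h8 (by positivity)
      _ = 1 := by field_simp)
  exact sat_of_bsys hw'

theorem neg_of_sat {S : List Con} (h : Sat S) :
    ∃ w : ℕ → ℝ, sq (qs S) w w < w (KK S + 1) ^ 4 := by
  obtain ⟨w₁, hb, hw₁⟩ := bsys_of_sat h
  set K := KK S with hK
  set vs := svars (bsys S) with hvs
  let w : ℕ → ℝ := fun a =>
    if a = 0 then 1 else if a ≤ K + 1 then (1 / 8) ^ 2 ^ (a - 1) else
    if a = K + 2 then √(1 / 4 - ((1 / 8) ^ 2 ^ K) ^ 2) else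
    if (a - (K + 3)) % 2 = 0 then w₁ (vs.getD ((a - (K + 3)) / 2) 0) else
      √(1 / 4 - (w₁ (vs.getD ((a - (K + 3)) / 2) 0)) ^ 2)
  have hw0 : w 0 = 1 := by simp [w]
  have hwc : ∀ j ≤ K, w (j + 1) = (1 / 8) ^ 2 ^ j := by
    intro j hj
    simp only [w]
    rw [if_neg (by omega), if_pos (by omega)]
    simp
  have hwt : w (K + 2) = √(1 / 4 - ((1 / 8) ^ 2 ^ K) ^ 2) := by
    simp only [w]
    rw [if_neg (by omega), if_neg (by omega), if_pos trivial]
  have hwi : ∀ i ∈ vs, w (fc S i) = w₁ i ∧ w (fc S i + 1) = √(1 / 4 - w₁ i ^ 2) := by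
    intro i hi
    have h1 : vs.getD (vs.idxOf i) 0 = i := by
      have h2 := List.idxOf_lt_length_of_mem hi
      rw [List.getD_eq_getElem _ _ h2]
      exact List.getElem_idxOf h2
    have h3 : fc S i = K + 3 + 2 * vs.idxOf i := rfl
    constructor
    · simp only [w]
      rw [if_neg (by omega), if_neg (by omega), if_neg (by omega), if_pos (by omega)]
      rw [show (fc S i - (K + 3)) / 2 = vs.idxOf i by omega, h1]
    · simp only [w]
      rw [if_neg (by omega), if_neg (by omega), if_neg (by omega), if_neg (by omega)]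
      rw [show (fc S i + 1 - (K + 3)) / 2 = vs.idxOf i by omega, h1]
  have hsmall : ∀ r : ℝ, |r| ≤ 1 / 8 → 4 * r ^ 2 + 4 * √(1 / 4 - r ^ 2) ^ 2 - 1 = 0 := by
    intro r hr
    have h1 : r ^ 2 ≤ 1 / 64 := by
      rw [← sq_abs]
      nlinarith [abs_nonneg r]
    rw [Real.sq_sqrt (by linarith)]
    ring
  have hch : |((1 : ℝ) / 8) ^ 2 ^ K| ≤ 1 / 8 := by
    rw [abs_of_pos (by positivity)]
    calc ((1 : ℝ) / 8) ^ 2 ^ K ≤ (1 / 8) ^ 1 :=
          pow_le_pow_of_le_one (by norm_num) (by norm_num) Nat.one_le_two_pow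
      _ = 1 / 8 := by norm_num
  have hzero : ∀ q ∈ qlist S, ev q w w = 0 := by
    intro q hq
    unfold qlist at hq
    rw [← hK, ← hvs, List.mem_append, List.mem_append, List.mem_append] at hq
    rcases hq with hq | hq | hq | hq
    · obtain ⟨c, hc, rfl⟩ := List.mem_map.1 hq
      rw [ev_qcon hw0]
      have h1 : c.err (fun i => w (fc S i)) = c.err w₁ := by
        have hx : ∀ i ∈ c.vars, w (fc S i) = w₁ i := fun i hi => (hwi i (mem_svars hc hi)).1
        cases c with
        | one i => simp only [Con.err]; rw [hx i (by simp [Con.vars])]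
        | add i j k =>
          simp only [Con.err]
          rw [hx i (by simp [Con.vars]), hx j (by simp [Con.vars]), hx k (by simp [Con.vars])]
        | mul i j k =>
          simp only [Con.err]
          rw [hx i (by simp [Con.vars]), hx j (by simp [Con.vars]), hx k (by simp [Con.vars])]
      rw [h1, Con.err_eq_zero]
      exact hw₁ c hc
    · obtain ⟨i, hi, rfl⟩ := List.mem_map.1 hq
      rw [ev_qbd hw0, (hwi i hi).1, (hwi i hi).2]
      exact hsmall _ (hb i)
    · obtain ⟨c, hc, rfl⟩ := List.mem_map.1 hq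
      rw [ev_qcon hw0]
      unfold chain at hc
      rw [List.mem_cons, List.mem_map] at hc
      rcases hc with rfl | ⟨j, hj, rfl⟩
      · simp only [Con.err]
        rw [hwc 0 (by omega)]
        norm_num
      · rw [List.mem_range] at hj
        simp only [Con.err]
        rw [hwc j (by omega), hwc (j + 1) (by omega), pow_succ 2 j, pow_mul]
        ring
    · rw [List.mem_singleton] at hq
      subst hq
      rw [ev_qbd hw0, hwc K le_rfl, hwt]
      exact hsmall _ hch
  refine ⟨w, ?_⟩
  rw [sq_qs]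
  have h1 : ((qlist S).map fun q => (8 * ev q w w) ^ 2).sum = 0 := by
    apply List.sum_eq_zero
    intro x hx
    obtain ⟨q, hq, rfl⟩ := List.mem_map.1 hx
    rw [hzero q hq]
    ring
  rw [h1, hwc K le_rfl]
  positivity

theorem sat_iff_neg (S : List Con) :
    Sat S ↔ ∃ w : ℕ → ℝ, sq (qs S) w w < w (KK S + 1) ^ 4 :=
  ⟨neg_of_sat, fun ⟨_, h⟩ => sat_of_neg h⟩

theorem sat_iff_forms (S : List Con) :
    Sat S ↔ ∃ x y : ℕ → ℝ, nq (dimn S) x ≤ 1 ∧ nq (dimn S) y ≤ 1 ∧
      ((del (qs S) : ℝ) + 1) ^ 2 < sq (forms (dimn S) (KK S + 1) (qs S)) x y := by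
  rw [sat_iff_neg, core (by unfold dimn; omega) (qs_ok S) (qs_symm S)]

end Pool.Agent.NPC.ER.SN19
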