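import Pool.Agent.U19.SN.Defs
import Pool.Agent.U19.SN.Sys

/-!
# The spectral norm of the tensor of a list of bilinear forms
-/

namespace Pool.Agent.NPC.ER.SN19

section

variable {d : ℕ}

theorem abs_coord_le {x : EuclideanSpace ℝ (Fin d)} (hx : ‖x‖ ≤ 1) (i : Fin d) : |x i| ≤ 1 :=
  (PiLp.norm_apply_le x i).trans hx

theorem form_smul (T : Fin d → Fin d → Fin d → ℝ) (a b c : ℝ) (x y z : EuclideanSpace ℝ (Fin d)) :
    form T (a • x) (b • y) (c • z) = a * b * c * form T x y z := by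
  unfold form
  simp only [Finset.mul_sum]
  refine Finset.sum_congr rfl fun i _ => Finset.sum_congr rfl fun j _ =>
    Finset.sum_congr rfl fun k _ => ?_
  simp only [PiLp.smul_apply, smul_eq_mul]
  ring

theorem form_bdd (T : Fin d → Fin d → Fin d → ℝ) {x y z : EuclideanSpace ℝ (Fin d)}
    (hx : ‖x‖ ≤ 1) (hy : ‖y‖ ≤ 1) (hz : ‖z‖ ≤ 1) :
    |form T x y z| ≤ ∑ i, ∑ j, ∑ k, |T i j k| := by
  unfold form
  refine (Finset.abs_sum_le_sum_abs _ _).trans (Finset.sum_le_sum fun i _ => ?_)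
  refine (Finset.abs_sum_le_sum_abs _ _).trans (Finset.sum_le_sum fun j _ => ?_)
  refine (Finset.abs_sum_le_sum_abs _ _).trans (Finset.sum_le_sum fun k _ => ?_)
  rw [abs_mul, abs_mul, abs_mul]
  have h1 := abs_coord_le hx i
  have h2 := abs_coord_le hy j
  have h3 := abs_coord_le hz k
  have h4 : |T i j k| * |x i| ≤ |T i j k| := mul_le_of_le_one_right (abs_nonneg _) h1
  have h5 : |T i j k| * |x i| * |y j| ≤ |T i j k| * |x i| :=
    mul_le_of_le_one_right (by positivity) h2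
  have h6 : |T i j k| * |x i| * |y j| * |z k| ≤ |T i j k| * |x i| * |y j| :=
    mul_le_of_le_one_right (by positivity) h3
  linarith

theorem lt_specNorm_iff (hd : 0 < d) (T : Fin d → Fin d → Fin d → ℝ) (σ : ℝ) :
    σ < specNorm T ↔ ∃ x y z : EuclideanSpace ℝ (Fin d), ‖x‖ = 1 ∧ ‖y‖ = 1 ∧ ‖z‖ = 1 ∧
      σ < |form T x y z| := by
  unfold specNorm
  rw [lt_csSup_iff]
  · constructor
    · rintro ⟨r, ⟨x, y, z, hx, hy, hz, rfl⟩, h⟩
      exact ⟨x, y, z, hx, hy, hz, h⟩
    · rintro ⟨x, y, z, hx, hy, hz, h⟩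
      exact ⟨_, ⟨x, y, z, hx, hy, hz, rfl⟩, h⟩
  · refine ⟨∑ i, ∑ j, ∑ k, |T i j k|, ?_⟩
    rintro r ⟨x, y, z, hx, hy, hz, rfl⟩
    exact form_bdd T hx.le hy.le hz.le
  · refine ⟨_, EuclideanSpace.single ⟨0, hd⟩ (1 : ℝ), EuclideanSpace.single ⟨0, hd⟩ (1 : ℝ),
      EuclideanSpace.single ⟨0, hd⟩ (1 : ℝ), ?_, ?_, ?_, rfl⟩ <;> simp

theorem lt_specNorm_iff' (hd : 0 < d) (T : Fin d → Fin d → Fin d → ℝ) {σ : ℝ} (hσ : 0 ≤ σ) :
    σ < specNorm T ↔ ∃ x y z : EuclideanSpace ℝ (Fin d), ‖x‖ ≤ 1 ∧ ‖y‖ ≤ 1 ∧ ‖z‖ ≤ 1 ∧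
      σ < |form T x y z| := by
  rw [lt_specNorm_iff hd]
  constructor
  · rintro ⟨x, y, z, hx, hy, hz, h⟩
    exact ⟨x, y, z, hx.le, hy.le, hz.le, h⟩
  · rintro ⟨x, y, z, hx, hy, hz, h⟩
    have key : ∀ u : EuclideanSpace ℝ (Fin d), ‖u‖ ≤ 1 → u ≠ 0 →
        ∃ a : ℝ, 1 ≤ a ∧ ‖a • u‖ = 1 := by
      intro u hu hu0
      have h1 : 0 < ‖u‖ := norm_pos_iff.2 hu0
      refine ⟨‖u‖⁻¹, (one_le_inv₀ h1).2 hu, ?_⟩
      rw [norm_smul, norm_inv, norm_norm]
      exact inv_mul_cancel₀ h1.ne'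
    have hf : form T x y z ≠ 0 := by
      intro h0
      rw [h0, abs_zero] at h
      linarith
    have hx0 : x ≠ 0 := by
      rintro rfl
      exact hf (by simp [form])
    have hy0 : y ≠ 0 := by
      rintro rfl
      exact hf (by simp [form])
    have hz0 : z ≠ 0 := by
      rintro rfl
      exact hf (by simp [form])
    obtain ⟨a, ha, ha'⟩ := key x hx hx0
    obtain ⟨b, hb, hb'⟩ := key y hy hy0
    obtain ⟨c, hc, hc'⟩ := key z hz hz0
    refine ⟨a • x, b • y, c • z, ha', hb', hc', ?_⟩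
    rw [form_smul, abs_mul]
    have h1 : 1 ≤ |a * b * c| := by
      rw [abs_of_pos (by positivity)]
      have := one_le_mul_of_one_le_of_one_le ha hb
      exact one_le_mul_of_one_le_of_one_le this hc
    calc σ < |form T x y z| := h
      _ = 1 * |form T x y z| := (one_mul _).symm
      _ ≤ _ := mul_le_mul_of_nonneg_right h1 (abs_nonneg _)

/-- the coefficient of `x_i y_j` in a bilinear form -/
def coef (l : BF) (i j : ℕ) : ℤ :=
  (l.map fun t => if t.1 = i ∧ t.2.1 = j then t.2.2 else 0).sum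

/-- a vector as a function on the natural numbers -/
noncomputable def exv (x : EuclideanSpace ℝ (Fin d)) (a : ℕ) : ℝ := if h : a < d then x ⟨a, h⟩ else 0

theorem ev_exv {l : BF} {n : ℕ} (hl : Ok n l) (hn : n ≤ d) (x y : EuclideanSpace ℝ (Fin d)) :
    ev l (exv x) (exv y) = ∑ i : Fin d, ∑ j : Fin d, (coef l i j : ℝ) * x i * y j := by
  induction l with
  | nil => simp [ev, coef]
  | cons t l ih =>
    have h1 := ih fun s hs => hl s (List.mem_cons_of_mem _ hs)
    obtain ⟨h2, h3⟩ := hl t List.mem_cons_self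
    have h4 : ev (t :: l) (exv x) (exv y) = tev t (exv x) (exv y) + ev l (exv x) (exv y) := by
      simp [ev]
    have h5 : ∀ i j : ℕ, coef (t :: l) i j = (if t.1 = i ∧ t.2.1 = j then t.2.2 else 0) +
        coef l i j := by
      intro i j
      simp [coef]
    rw [h4, h1]
    simp only [h5, Int.cast_add, add_mul, Finset.sum_add_distrib]
    congr 1
    have h6 : ∀ i j : Fin d, (((if t.1 = (i : ℕ) ∧ t.2.1 = (j : ℕ) then t.2.2 else 0 : ℤ)) : ℝ) *
        x i * y j = if i = ⟨t.1, by omega⟩ then (if j = ⟨t.2.1, by omega⟩ then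
          (t.2.2 : ℝ) * x i * y j else 0) else 0 := by
      intro i j
      by_cases h : t.1 = (i : ℕ)
      · by_cases h' : t.2.1 = (j : ℕ)
        · rw [if_pos ⟨h, h'⟩, if_pos (Fin.ext h.symm), if_pos (Fin.ext h'.symm)]
        · rw [if_neg (fun h'' => h' h''.2), if_pos (Fin.ext h.symm),
            if_neg (fun h'' => h' (by rw [h'']))]
          simp
      · rw [if_neg (fun h'' => h h''.1), if_neg (fun h'' => h (by rw [h'']))]
        simp
    simp only [h6, Finset.sum_ite_eq', Finset.mem_univ, if_true]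
    unfold tev exv
    rw [dif_pos (by omega), dif_pos (by omega)]
    rw [Finset.sum_comm]
    simp only [Finset.sum_ite_eq', Finset.mem_univ, if_true]
    ring

theorem nq_exv {n : ℕ} (hn : n ≤ d) (x : EuclideanSpace ℝ (Fin d)) : nq n (exv x) ≤ ‖x‖ ^ 2 := by
  rw [EuclideanSpace.real_norm_sq_eq]
  have h1 : ∑ i, x i ^ 2 = ∑ i ∈ Finset.range d, exv x i ^ 2 := by
    rw [← Fin.sum_univ_eq_sum_range (fun i => exv x i ^ 2)]
    refine Finset.sum_congr rfl fun i _ => ?_
    unfold exv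
    rw [dif_pos i.2]
  rw [h1]
  exact Finset.sum_le_sum_of_subset_of_nonneg (Finset.range_mono hn) fun i _ _ => by positivity

/-- the tensor of a list of bilinear forms -/
def tenL (LL : List BF) (i j k : Fin d) : ℝ := (coef (LL.getD k []) i j : ℝ)

theorem form_tenL {LL : List BF} {n : ℕ} (hl : ∀ l ∈ LL, Ok n l) (hn : n ≤ d)
    (x y z : EuclideanSpace ℝ (Fin d)) :
    form (tenL LL) x y z = ∑ k : Fin d, ev (LL.getD k []) (exv x) (exv y) * z k := by
  have h1 : ∀ k : ℕ, Ok n (LL.getD k []) := by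
    intro k
    by_cases hk : k < LL.length
    · rw [List.getD_eq_getElem _ _ hk]
      exact hl _ (List.getElem_mem hk)
    · rw [List.getD_eq_default _ _ (by omega)]
      intro t ht
      simp at ht
  unfold form tenL
  have h2 : ∑ i : Fin d, ∑ j : Fin d, ∑ k : Fin d,
      (coef (LL.getD k []) i j : ℝ) * x i * y j * z k =
      ∑ k : Fin d, ∑ i : Fin d, ∑ j : Fin d, (coef (LL.getD k []) i j : ℝ) * x i * y j * z k := by
    rw [Finset.sum_comm (γ := Fin d) (s := (Finset.univ : Finset (Fin d)))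
      (t := (Finset.univ : Finset (Fin d)))
      (f := fun k i => ∑ j : Fin d, (coef (LL.getD k []) i j : ℝ) * x i * y j * z k)]
    exact Finset.sum_congr rfl fun i _ => Finset.sum_comm
  rw [h2]
  refine Finset.sum_congr rfl fun k _ => ?_
  rw [ev_exv (h1 k) hn, Finset.sum_mul]
  refine Finset.sum_congr rfl fun i _ => ?_
  rw [Finset.sum_mul]

theorem sum_getD {LL : List BF} (hd : LL.length ≤ d) (x y : ℕ → ℝ) :
    ∑ k : Fin d, ev (LL.getD k []) x y ^ 2 = sq LL x y := by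
  rw [Fin.sum_univ_eq_sum_range (fun k => ev (LL.getD k []) x y ^ 2)]
  have h1 : ∀ l : List BF, ∑ k ∈ Finset.range l.length, ev (l.getD k []) x y ^ 2 = sq l x y := by
    intro l
    induction l with
    | nil => simp [sq]
    | cons a l ih =>
      rw [List.length_cons, Finset.sum_range_succ', sq_cons, ← ih]
      simp [add_comm]
  rw [← h1 LL]
  symm
  apply Finset.sum_subset (Finset.range_mono hd)
  intro k _ hk
  rw [Finset.mem_range, not_lt] at hk
  rw [List.getD_eq_default _ _ hk]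
  simp [ev]

theorem lt_specNorm_tenL {LL : List BF} {n : ℕ} (hl : ∀ l ∈ LL, Ok n l) (hn : n ≤ d) (hd : 0 < d)
    (hL : LL.length ≤ d) {σ : ℝ} (hσ : 0 ≤ σ) :
    σ < specNorm (tenL (d := d) LL) ↔
      ∃ x y : ℕ → ℝ, nq n x ≤ 1 ∧ nq n y ≤ 1 ∧ σ ^ 2 < sq LL x y := by
  rw [lt_specNorm_iff' hd _ hσ]
  constructor
  · rintro ⟨x, y, z, hx, hy, hz, h⟩
    refine ⟨exv x, exv y, (nq_exv hn x).trans (pow_le_one₀ (norm_nonneg _) hx),
      (nq_exv hn y).trans (pow_le_one₀ (norm_nonneg _) hy), ?_⟩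
    rw [form_tenL hl hn] at h
    have h1 : (∑ k : Fin d, ev (LL.getD k []) (exv x) (exv y) * z k) ^ 2 ≤
        (∑ k : Fin d, ev (LL.getD k []) (exv x) (exv y) ^ 2) * ∑ k, z k ^ 2 :=
      Finset.sum_mul_sq_le_sq_mul_sq _ _ _
    rw [sum_getD hL, ← EuclideanSpace.real_norm_sq_eq] at h1
    have h2 : ‖z‖ ^ 2 ≤ 1 := pow_le_one₀ (norm_nonneg _) hz
    have h3 := sq_nonneg' LL (exv x) (exv y)
    have h4 : σ ^ 2 < (∑ k : Fin d, ev (LL.getD k []) (exv x) (exv y) * z k) ^ 2 := by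
      rw [← sq_abs (∑ k : Fin d, ev (LL.getD k []) (exv x) (exv y) * z k)]
      exact pow_lt_pow_left₀ h hσ (by norm_num)
    calc σ ^ 2 < _ := h4
      _ ≤ sq LL (exv x) (exv y) * ‖z‖ ^ 2 := h1
      _ ≤ sq LL (exv x) (exv y) := mul_le_of_le_one_right h3 h2
  · rintro ⟨u, v, hu, hv, h⟩
    -- restriction to the first coordinates
    let r : (ℕ → ℝ) → EuclideanSpace ℝ (Fin d) := fun u =>
      WithLp.toLp 2 fun i : Fin d => if (i : ℕ) < n then u i else 0
    have hr : ∀ u, ∀ a < n, exv (r u) a = u a := by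
      intro u a ha
      unfold exv
      rw [dif_pos (by omega)]
      simp [r, ha]
    have hrn : ∀ u, nq n u ≤ 1 → ‖r u‖ ≤ 1 := by
      intro u hu
      have h1 : ‖r u‖ ^ 2 = nq n u := by
        rw [EuclideanSpace.real_norm_sq_eq]
        have h2 : ∀ i : Fin d, (r u) i ^ 2 = (fun i : ℕ => if i < n then u i ^ 2 else 0) i := by
          intro i
          simp only [r]
          split_ifs <;> simp
        simp only [h2]
        rw [Fin.sum_univ_eq_sum_range (fun i : ℕ => if i < n then u i ^ 2 else 0)]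
        unfold nq
        symm
        rw [← Finset.sum_subset (Finset.range_mono hn)]
        · refine Finset.sum_congr rfl fun i hi => ?_
          rw [if_pos (Finset.mem_range.1 hi)]
        · intro i _ hi
          rw [if_neg (by simpa using hi)]
      have h2 : ‖r u‖ ^ 2 ≤ 1 := by rw [h1]; exact hu
      exact (sq_le_one_iff₀ (norm_nonneg _)).1 h2
    have hev : ∀ l ∈ LL, ev l (exv (r u)) (exv (r v)) = ev l u v := by
      intro l hl'
      unfold ev
      congr 1
      refine List.map_congr_left fun t ht => ?_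
      unfold tev
      rw [hr u _ (hl l hl' t ht).1, hr v _ (hl l hl' t ht).2]
    have hsq : sq LL (exv (r u)) (exv (r v)) = sq LL u v := by
      unfold sq
      congr 1
      refine List.map_congr_left fun l hl' => ?_
      rw [hev l hl']
    set s : ℝ := √(sq LL u v) with hs
    have hs0 : 0 < sq LL u v := lt_of_le_of_lt (by positivity) h
    have hs1 : 0 < s := Real.sqrt_pos.2 hs0
    have hs2 : s ^ 2 = sq LL u v := Real.sq_sqrt hs0.le
    refine ⟨r u, r v, WithLp.toLp 2 fun k : Fin d =>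
      s⁻¹ * ev (LL.getD k []) (exv (r u)) (exv (r v)), hrn u hu, hrn v hv, ?_, ?_⟩
    · have h1 : ‖(WithLp.toLp 2 fun k : Fin d =>
          s⁻¹ * ev (LL.getD k []) (exv (r u)) (exv (r v)) : EuclideanSpace ℝ (Fin d))‖ ^ 2 ≤ 1 := by
        rw [EuclideanSpace.real_norm_sq_eq]
        simp only [mul_pow, ← Finset.mul_sum]
        rw [sum_getD hL, hsq, ← hs2, ← mul_pow, inv_mul_cancel₀ hs1.ne', one_pow]
      exact (sq_le_one_iff₀ (norm_nonneg _)).1 h1
    · rw [form_tenL hl hn]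
      have h1 : ∑ k : Fin d, ev (LL.getD k []) (exv (r u)) (exv (r v)) *
          (WithLp.toLp 2 fun k : Fin d =>
            s⁻¹ * ev (LL.getD k []) (exv (r u)) (exv (r v)) : EuclideanSpace ℝ (Fin d)) k = s := by
        have h2 : ∀ k : Fin d, ev (LL.getD k []) (exv (r u)) (exv (r v)) *
          (WithLp.toLp 2 fun k : Fin d =>
            s⁻¹ * ev (LL.getD k []) (exv (r u)) (exv (r v)) : EuclideanSpace ℝ (Fin d)) k =
            s⁻¹ * ev (LL.getD k []) (exv (r u)) (exv (r v)) ^ 2 := by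
          intro k
          simp only
          ring
        simp only [h2, ← Finset.mul_sum]
        rw [sum_getD hL, hsq, ← hs2, pow_two, ← mul_assoc, inv_mul_cancel₀ hs1.ne', one_mul]
      rw [h1, abs_of_pos hs1]
      exact lt_of_pow_lt_pow_left₀ 2 hs1.le (by rw [hs2]; exact h)

end

end Pool.Agent.NPC.ER.SN19
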